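import Pool.Agent.X331.AF.Curve

set_option autoImplicit false

/-! # Points of a projective variety given by arithmetic functions: the bound and its converse -/

namespace Pool.Agent.X331.AF

open Finset Pool.Agent.H533R3.SL
open scoped LinearAlgebra.Projectivization

variable {n r : ℕ}

theorem off_bound {k L : Type} [Field k] [Field L] [CharZero L] [Algebra k L]
    (FF : Finset (MvPolynomial (Fin (n + 1)) k)) (d : ℕ)
    (hFF : ∀ F ∈ FF, ∃ e, e ≤ d ∧ F.IsHomogeneous e)
    (G : MvPolynomial (Fin (n + 1)) k) (g : ℕ) (hGg : G.IsHomogeneous g)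
    (hG : ∀ (c : Fin r → Fin (n + 1) → L) (l : Fin r → ℕ),
        (∀ F ∈ FF, MvPolynomial.aeval (cur c l) F = 0) →
        (∃ i i', cur c l i * Polynomial.C (∑ j, c j i') ≠
          cur c l i' * Polynomial.C (∑ j, c j i)) →
        MvPolynomial.aeval (fun i => ∑ j, c j i) G = 0)
    (s : ℕ) (P : ℕ → Fin (n + 1) → L) (hP : PrimeCurves r s P) (N : ℕ) (hN : 1 ≤ N) :
    ((offPoints FF G P N).ncard : ℝ) ≤
      (s * (d + 1) ^ r + 60000) * N * Real.exp (-(√(Real.log N) / 4)) := by
  classical
  let f : ℕ → Option (ℙ L (Fin (n + 1) → L)) := fun m =>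
    if h : P m ≠ 0 then some (Projectivization.mk L (P m) h) else none
  let good : ℕ → Prop := fun m => P m ≠ 0 ∧ (∀ F ∈ FF, MvPolynomial.aeval (P m) F = 0) ∧
    MvPolynomial.aeval (P m) G ≠ 0
  have hK : ∀ m, 1 ≤ m → ∀ T : Finset ℕ, (∀ p ∈ T, Above m p ∧ good (m * p)) →
      ((fun p => f (m * p)) '' (T : Set ℕ)).ncard ≤ s * (d + 1) ^ r := by
    intro m hm T hT
    obtain ⟨c, l, hcl⟩ := hP m hm
    let Tj : Fin s → Finset ℕ := fun j => T.filter fun p => ∃ u : L, u ≠ 0 ∧
      ∀ i, P (m * p) i = u * ∑ a, c j a i * (p : L) ^ (l j a)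
    have hcov : ((fun p => f (m * p)) '' (T : Set ℕ)) ⊆
        (((univ : Finset (Fin s)).biUnion fun j => (Tj j).image fun p => f (m * p) :
          Finset (Option (ℙ L (Fin (n + 1) → L)))) : Set (Option (ℙ L (Fin (n + 1) → L)))) := by
      rintro _ ⟨p, hp, rfl⟩
      obtain ⟨j, u, hu, h⟩ := hcl p (hT p hp).1
      rw [mem_coe, mem_biUnion]
      exact ⟨j, mem_univ _, mem_image_of_mem _ (mem_filter.2 ⟨hp, u, hu, h⟩)⟩
    have h1 := Set.ncard_le_ncard hcov (Finset.finite_toSet _)
    rw [Set.ncard_coe_finset] at h1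
    refine h1.trans (card_biUnion_le.trans ?_)
    have hpt : ∀ j, ∀ p ∈ Tj j, 0 < p ∧
        (∀ F ∈ (FF : Set (MvPolynomial (Fin (n + 1)) k)),
          MvPolynomial.aeval (fun i => ∑ a, c j a i * (p : L) ^ (l j a)) F = 0) ∧
        MvPolynomial.aeval (fun i => ∑ a, c j a i * (p : L) ^ (l j a)) G ≠ 0 := by
      intro j p hp
      obtain ⟨hpT, u, hu, h⟩ := mem_filter.1 hp
      obtain ⟨habove, hne, hF, hGne⟩ := hT p hpT
      refine ⟨habove.1.pos, ?_, ?_⟩
      · intro F hFm
        obtain ⟨e, -, hFe⟩ := hFF F hFm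
        have h2 := aeval_smul_hom F e hFe u (P (m * p)) _ h
        rw [hF F hFm] at h2
        exact (mul_eq_zero.1 h2.symm).resolve_left (pow_ne_zero _ hu)
      · intro h3
        apply hGne
        rw [aeval_smul_hom G g hGg u (P (m * p)) _ h, h3, mul_zero]
    calc ∑ j, ((Tj j).image fun p => f (m * p)).card ≤ ∑ _j : Fin s, (d + 1) ^ r := by
          refine sum_le_sum fun j _ => ?_
          rcases one_curve (FF : Set (MvPolynomial (Fin (n + 1)) k)) d hFF G hG (c j) (l j) (Tj j)
            (hpt j) with h2 | h2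
          · exact card_image_le.trans h2
          · have h3 : ((Tj j).image fun p => f (m * p)).card ≤ 1 := by
              rw [card_le_one]
              intro a ha b hb
              obtain ⟨p, hp, rfl⟩ := mem_image.1 ha
              obtain ⟨q, hq, rfl⟩ := mem_image.1 hb
              obtain ⟨hpT, u, hu, hpu⟩ := mem_filter.1 hp
              obtain ⟨hqT, v, hv, hqv⟩ := mem_filter.1 hq
              have hpne : P (m * p) ≠ 0 := (hT p hpT).2.1
              have hqne : P (m * q) ≠ 0 := (hT q hqT).2.1
              simp only [f, dif_pos hpne, dif_pos hqne]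
              congr 1
              apply Pool.Agent.TH138.LG.mk_eq_of_cross
              intro i i'
              rw [hpu i, hpu i', hqv i, hqv i']
              have := h2 p hp q hq i i'
              linear_combination u * v * this
            exact h3.trans (Nat.one_le_pow _ _ (by omega))
      _ = s * (d + 1) ^ r := by simp
  have hcount := count_points f good (s * (d + 1) ^ r) hK N hN
  have hfin : ({x | ∃ m, 1 ≤ m ∧ m ≤ N ∧ good m ∧ f m = x} :
      Set (Option (ℙ L (Fin (n + 1) → L)))).Finite := by
    refine ((Finset.Icc 1 N).finite_toSet.image f).subset ?_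
    rintro x ⟨m, h1, h2, -, rfl⟩
    exact ⟨m, by simp [h1, h2], rfl⟩
  have hle : (offPoints FF G P N).ncard ≤
      ({x | ∃ m, 1 ≤ m ∧ m ≤ N ∧ good m ∧ f m = x} :
        Set (Option (ℙ L (Fin (n + 1) → L)))).ncard := by
    refine Set.ncard_le_ncard_of_injOn (fun x => some x) ?_ ?_ hfin
    · rintro x ⟨m, h1, h2, h, rfl, h3, h4⟩
      refine ⟨m, h1, h2, ⟨h, h3, h4⟩, ?_⟩
      simp only [f, dif_pos h]
    · intro a _ b _ hab
      exact Option.some_injective _ hab
  calc ((offPoints FF G P N).ncard : ℝ) ≤ _ := by exact_mod_cast hle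
    _ ≤ _ := hcount
    _ = _ := by push_cast; ring

theorem offPoints_finite {k L : Type} [Field k] [Field L] [Algebra k L]
    (FF : Finset (MvPolynomial (Fin (n + 1)) k)) (G : MvPolynomial (Fin (n + 1)) k)
    (P : ℕ → Fin (n + 1) → L) (N : ℕ) : (offPoints FF G P N).Finite := by
  classical
  let f : ℕ → Set (ℙ L (Fin (n + 1) → L)) := fun m =>
    {x | ∃ h : P m ≠ 0, x = Projectivization.mk L (P m) h}
  have : offPoints FF G P N ⊆ ⋃ m ∈ (Finset.Icc 1 N : Finset ℕ), f m := by
    rintro x ⟨m, h1, h2, h, rfl, -, -⟩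
    rw [Set.mem_iUnion₂]
    exact ⟨m, Finset.mem_Icc.2 ⟨h1, h2⟩, h, rfl⟩
  refine Set.Finite.subset (Set.Finite.biUnion (Finset.finite_toSet _) fun m _ => ?_) this
  by_cases h : P m ≠ 0
  · refine (Set.finite_singleton (Projectivization.mk L (P m) h)).subset ?_
    rintro x ⟨_, rfl⟩
    rfl
  · refine Set.finite_empty.subset ?_
    rintro x ⟨h', -⟩
    exact h h'

/-- the values of a polynomial curve at the natural numbers -/
theorem primeCurves_of_poly {L : Type} [Field L] (p : Fin (n + 1) → Polynomial L) (D : ℕ)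
    (hD : ∀ i, (p i).natDegree < D) :
    PrimeCurves D 1 (fun (m : ℕ) (i : Fin (n + 1)) => (p i).eval (m : L)) := by
  intro m _
  refine ⟨fun _ a i => (p i).coeff a * (m : L) ^ (a : ℕ), fun _ a => a, ?_⟩
  intro q _
  refine ⟨0, 1, one_ne_zero, fun i => ?_⟩
  show (p i).eval ((m * q : ℕ) : L) = 1 * ∑ a : Fin D, (p i).coeff a * (m : L) ^ (a : ℕ) *
    (q : L) ^ (a : ℕ)
  rw [one_mul, Polynomial.eval_eq_sum_range' (hD i), Finset.sum_range]
  refine Finset.sum_congr rfl fun a _ => ?_
  push_cast
  rw [mul_pow]
  ring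

/-- **Converse**: on a uniruled variety there is a family with a positive proportion of different
points off every hypersurface. -/
theorem converse {k : Type} [Field k] [CharZero k] (FF : Finset (MvPolynomial (Fin (n + 1)) k))
    (hu : Uniruled (Ideal.span (FF : Set (MvPolynomial (Fin (n + 1)) k)))) :
    ∃ (r : ℕ) (L : Type) (_ : Field L) (_ : Algebra k L) (P : ℕ → Fin (n + 1) → L),
      PrimeCurves r 1 P ∧ (∀ m, ∀ F ∈ FF, MvPolynomial.aeval (P m) F = 0) ∧
      ∀ G : MvPolynomial (Fin (n + 1)) k, (∃ e, G.IsHomogeneous e) →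
        G ∉ Ideal.span (FF : Set (MvPolynomial (Fin (n + 1)) k)) →
        ∃ δ : ℝ, 0 < δ ∧ ∃ N₀ : ℕ, ∀ N : ℕ, N₀ ≤ N →
          δ * N ≤ ((offPoints FF G P N).ncard : ℝ) := by
  classical
  obtain ⟨L, hL, hA, p, h1, h2, i₀, j₀, h3⟩ := hu
  have hchar : CharZero L := charZero_of_injective_algebraMap
    (FaithfulSMul.algebraMap_injective k L)
  set D : ℕ := ∑ i, (p i).natDegree + 1 with hD
  have hDi : ∀ i, (p i).natDegree < D := by
    intro i
    have := Finset.single_le_sum (f := fun i => (p i).natDegree) (fun _ _ => Nat.zero_le _)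
      (Finset.mem_univ i)
    rw [hD]
    exact Nat.lt_succ_of_le this
  set P : ℕ → Fin (n + 1) → L := fun m i => (p i).eval (m : L) with hP
  have hev : ∀ (G : MvPolynomial (Fin (n + 1)) k) (m : ℕ),
      MvPolynomial.aeval (P m) G = (MvPolynomial.aeval p G).eval (m : L) := by
    intro G m
    have h4 : (Polynomial.eval (m : L)) (MvPolynomial.aeval p G) =
        ((Polynomial.aeval (m : L) : Polynomial L →ₐ[L] L).restrictScalars k)
          (MvPolynomial.aeval p G) := by
      simp [Polynomial.coe_aeval_eq_eval]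
    rw [h4, ← AlgHom.comp_apply, MvPolynomial.comp_aeval]
    congr 2
  refine ⟨D, L, hL, hA, P, primeCurves_of_poly p D hDi, ?_, ?_⟩
  · intro m F hF
    rw [hev, h1 F (Ideal.subset_span hF), Polynomial.eval_zero]
  · intro G hGh hGI
    -- `G (p T)` is not the zero polynomial
    have hGp : MvPolynomial.aeval p G ≠ 0 := by
      intro h
      have h4 := h2 G hGh hGI
      apply h4
      have h5 := hev G 1
      rw [h, Polynomial.eval_zero] at h5
      have h6 : P 1 = fun i => (p i).eval 1 := by
        funext i
        simp [hP]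
      rw [h6] at h5
      exact h5
    obtain ⟨e, hGe⟩ := hGh
    set Dg : ℕ := (MvPolynomial.aeval p G).natDegree with hDg
    -- for a given point there are few values of `m`
    have hfib : ∀ m' : ℕ, P m' ≠ 0 → ∀ T : Finset ℕ, (∀ m ∈ T, ∀ i j,
        P m i * P m' j = P m j * P m' i) → T.card ≤ D := by
      intro m' hm' T hT
      obtain ⟨i, j, hij⟩ : ∃ i j, p i * Polynomial.C (P m' j) ≠ p j * Polynomial.C (P m' i) := by
        by_contra hcon
        push Not at hcon
        obtain ⟨j₁, hj₁⟩ : ∃ j, P m' j ≠ 0 := by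
          by_contra h
          push Not at h
          exact hm' (funext h)
        apply h3
        have e1 := hcon i₀ j₁
        have e2 := hcon j₀ j₁
        have e3 : (p i₀).eval 1 * P m' j₁ = (p j₁).eval 1 * P m' i₀ := by
          have := congrArg (Polynomial.eval 1) e1
          simpa using this
        have e4 : (p j₀).eval 1 * P m' j₁ = (p j₁).eval 1 * P m' j₀ := by
          have := congrArg (Polynomial.eval 1) e2
          simpa using this
        have hC : (Polynomial.C (P m' j₁) : Polynomial L) ^ 2 ≠ 0 :=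
          pow_ne_zero _ (by rwa [Ne, Polynomial.C_eq_zero])
        apply mul_left_cancel₀ hC
        have e3' : (Polynomial.C ((p i₀).eval 1) : Polynomial L) * Polynomial.C (P m' j₁) =
            Polynomial.C ((p j₁).eval 1) * Polynomial.C (P m' i₀) := by
          rw [← Polynomial.C_mul, e3, Polynomial.C_mul]
        have e4' : (Polynomial.C ((p j₀).eval 1) : Polynomial L) * Polynomial.C (P m' j₁) =
            Polynomial.C ((p j₁).eval 1) * Polynomial.C (P m' j₀) := by
          rw [← Polynomial.C_mul, e4, Polynomial.C_mul]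
        calc Polynomial.C (P m' j₁) ^ 2 * (p i₀ * Polynomial.C ((p j₀).eval 1)) =
              (p i₀ * Polynomial.C (P m' j₁)) *
                (Polynomial.C ((p j₀).eval 1) * Polynomial.C (P m' j₁)) := by ring
          _ = (p j₁ * Polynomial.C (P m' i₀)) *
                (Polynomial.C ((p j₁).eval 1) * Polynomial.C (P m' j₀)) := by rw [e1, e4']
          _ = (p j₁ * Polynomial.C (P m' j₀)) *
                (Polynomial.C ((p j₁).eval 1) * Polynomial.C (P m' i₀)) := by ring
          _ = (p j₀ * Polynomial.C (P m' j₁)) *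
                (Polynomial.C ((p i₀).eval 1) * Polynomial.C (P m' j₁)) := by rw [e2, e3']
          _ = Polynomial.C (P m' j₁) ^ 2 * (p j₀ * Polynomial.C ((p i₀).eval 1)) := by ring
      set q : Polynomial L := p i * Polynomial.C (P m' j) - p j * Polynomial.C (P m' i) with hq
      have hq0 : q ≠ 0 := sub_ne_zero.2 hij
      have hsub : T.image (fun m : ℕ => (m : L)) ⊆ q.roots.toFinset := by
        intro x hx
        obtain ⟨m, hm, rfl⟩ := Finset.mem_image.1 hx
        rw [Multiset.mem_toFinset, Polynomial.mem_roots hq0, Polynomial.IsRoot, hq]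
        simp only [Polynomial.eval_sub, Polynomial.eval_mul, Polynomial.eval_C]
        have := hT m hm i j
        exact sub_eq_zero.2 this
      have hc1 : T.card ≤ q.natDegree := by
        rw [← Finset.card_image_of_injective T (Nat.cast_injective (R := L))]
        exact (Finset.card_le_card hsub).trans ((Multiset.toFinset_card_le _).trans
          (Polynomial.card_roots' q))
      refine hc1.trans ?_
      rw [hq]
      refine (Polynomial.natDegree_sub_le _ _).trans ?_
      rw [max_le_iff]
      exact ⟨(Polynomial.natDegree_mul_C_le _ _).trans (hDi i).le,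
        (Polynomial.natDegree_mul_C_le _ _).trans (hDi j).le⟩
    have hDpos : 0 < D := by omega
    have hDR : (0 : ℝ) < D := by exact_mod_cast hDpos
    refine ⟨1 / (2 * D), by positivity, 2 * (Dg + D), fun N hN => ?_⟩
    -- the good parameters
    obtain ⟨i₁, hi₁⟩ : ∃ i, p i ≠ 0 := by
      by_contra h
      push Not at h
      exact h3 (by rw [h i₀, h j₀])
    set A : Finset ℕ := (Finset.Icc 1 N).filter fun m =>
      MvPolynomial.aeval (P m) G ≠ 0 ∧ P m ≠ 0 with hA
    have hAc : N ≤ A.card + Dg + D := by
      have h4 : ((Finset.Icc 1 N).filter fun m => MvPolynomial.aeval (P m) G = 0).card ≤ Dg := by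
        have hsub : ((Finset.Icc 1 N).filter fun m => MvPolynomial.aeval (P m) G = 0).image
            (fun m : ℕ => (m : L)) ⊆ (MvPolynomial.aeval p G).roots.toFinset := by
          intro x hx
          obtain ⟨m, hm, rfl⟩ := Finset.mem_image.1 hx
          rw [Multiset.mem_toFinset, Polynomial.mem_roots hGp, Polynomial.IsRoot, ← hev]
          exact (Finset.mem_filter.1 hm).2
        rw [← Finset.card_image_of_injective _ (Nat.cast_injective (R := L))]
        exact (Finset.card_le_card hsub).trans ((Multiset.toFinset_card_le _).trans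
          (Polynomial.card_roots' _))
      have h4' : ((Finset.Icc 1 N).filter fun m => P m = 0).card ≤ D := by
        have hsub : ((Finset.Icc 1 N).filter fun m => P m = 0).image
            (fun m : ℕ => (m : L)) ⊆ (p i₁).roots.toFinset := by
          intro x hx
          obtain ⟨m, hm, rfl⟩ := Finset.mem_image.1 hx
          rw [Multiset.mem_toFinset, Polynomial.mem_roots hi₁, Polynomial.IsRoot]
          exact congrFun (Finset.mem_filter.1 hm).2 i₁
        rw [← Finset.card_image_of_injective _ (Nat.cast_injective (R := L))]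
        exact (Finset.card_le_card hsub).trans ((Multiset.toFinset_card_le _).trans
          ((Polynomial.card_roots' _).trans (hDi i₁).le))
      have h5 : (Finset.Icc 1 N) ⊆ A ∪
          (((Finset.Icc 1 N).filter fun m => MvPolynomial.aeval (P m) G = 0) ∪
          ((Finset.Icc 1 N).filter fun m => P m = 0)) := by
        intro m hm
        by_cases g1 : MvPolynomial.aeval (P m) G = 0
        · exact Finset.mem_union_right _ (Finset.mem_union_left _ (Finset.mem_filter.2 ⟨hm, g1⟩))
        by_cases g2 : P m = 0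
        · exact Finset.mem_union_right _ (Finset.mem_union_right _ (Finset.mem_filter.2 ⟨hm, g2⟩))
        exact Finset.mem_union_left _ (Finset.mem_filter.2 ⟨hm, g1, g2⟩)
      have h6 := Finset.card_le_card h5
      rw [Nat.card_Icc, Nat.add_sub_cancel] at h6
      have h7 := Finset.card_union_le A
          (((Finset.Icc 1 N).filter fun m => MvPolynomial.aeval (P m) G = 0) ∪
          ((Finset.Icc 1 N).filter fun m => P m = 0))
      have h8 := Finset.card_union_le
          ((Finset.Icc 1 N).filter fun m => MvPolynomial.aeval (P m) G = 0)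
          ((Finset.Icc 1 N).filter fun m => P m = 0)
      omega
    let f : ℕ → Option (ℙ L (Fin (n + 1) → L)) := fun m =>
      if h : P m ≠ 0 then some (Projectivization.mk L (P m) h) else none
    have hfc : A.card ≤ D * (A.image f).card := by
      refine Finset.card_le_mul_card_image A D ?_
      intro x hx
      obtain ⟨m', hm', rfl⟩ := Finset.mem_image.1 hx
      have hP' : P m' ≠ 0 := (Finset.mem_filter.1 hm').2.2
      refine hfib m' hP' _ ?_
      intro m hm i j
      obtain ⟨hmA, hfm⟩ := Finset.mem_filter.1 hm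
      have hPm : P m ≠ 0 := (Finset.mem_filter.1 hmA).2.2
      simp only [f, dif_pos hP', dif_pos hPm] at hfm
      have h9 := Option.some_injective _ hfm
      rw [Projectivization.mk_eq_mk_iff'] at h9
      obtain ⟨a, ha⟩ := h9
      rw [← ha]
      simp only [Pi.smul_apply, smul_eq_mul]
      ring
    have hle : (A.image f).card ≤ (offPoints FF G P N).ncard := by
      rw [← Set.ncard_coe_finset, ← Set.ncard_image_of_injective (offPoints FF G P N)
        (Option.some_injective _)]
      refine Set.ncard_le_ncard ?_ ((offPoints_finite FF G P N).image _)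
      intro x hx
      rw [Finset.mem_coe] at hx
      obtain ⟨m, hm, rfl⟩ := Finset.mem_image.1 hx
      obtain ⟨hmI, hmG, hmP⟩ := Finset.mem_filter.1 hm
      rw [Finset.mem_Icc] at hmI
      simp only [f, dif_pos hmP]
      refine ⟨_, ⟨m, hmI.1, hmI.2, hmP, rfl, ?_, hmG⟩, rfl⟩
      intro F hF
      rw [hev, h1 F (Ideal.subset_span hF), Polynomial.eval_zero]
    have h10 : (A.card : ℝ) ≤ D * ((offPoints FF G P N).ncard : ℝ) := by
      exact_mod_cast hfc.trans (Nat.mul_le_mul_left D hle)
    have h11 : (N : ℝ) ≤ A.card + Dg + D := by exact_mod_cast hAc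
    have h12 : 2 * ((Dg : ℝ) + D) ≤ N := by exact_mod_cast hN
    rw [div_mul_eq_mul_div, one_mul, div_le_iff₀ (by positivity)]
    linarith

end Pool.Agent.X331.AF
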