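import Pool.Agent.X331.AF.Curve
import Pool.Agent.TH143.HE.Spec

set_option autoImplicit false

/-! # Points of an affine variety given by arithmetic functions -/

namespace Pool.Agent.X331.AF

open Finset MvPolynomial

variable {n r : ℕ}

/-- the polynomial curve `∑ c j T ^ (l j)` in affine space -/
noncomputable def acur {L : Type} [Field L] (c : Fin r → Fin n → L) (l : Fin r → ℕ) :
    Fin n → Polynomial L :=
  fun i => ∑ j, Polynomial.C (c j i) * Polynomial.X ^ (l j)

/-- the vector of the arithmetic functions `P` is given, for `n = m p` with a prime number `p`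
larger than all prime factors of `m`, by one of `s` curves with `r` terms, which depend on `m`:
`P (m p) = ∑ c p ^ l` -/
def AffCurves {L : Type} [Field L] (r s : ℕ) (P : ℕ → Fin n → L) : Prop :=
  ∀ m : ℕ, 1 ≤ m → ∃ (c : Fin s → Fin r → Fin n → L) (l : Fin s → Fin r → ℕ),
    ∀ p : ℕ, Above m p → ∃ j : Fin s, ∀ i, P (m * p) i = ∑ a, c j a i * (p : L) ^ (l j a)

theorem acur_eval {L : Type} [Field L] (c : Fin r → Fin n → L) (l : Fin r → ℕ) (t : L)
    (i : Fin n) : (acur c l i).eval t = ∑ j, c j i * t ^ (l j) := by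
  unfold acur
  simp [Polynomial.eval_finsetSum]

/-- all exponents of `p` are sums of `k` of the numbers `l j` -/
def SuppIn {L : Type} [Field L] (l : Fin r → ℕ) (k : ℕ) (p : Polynomial L) : Prop :=
  ∀ w, p.coeff w ≠ 0 → ∃ β : Fin r → ℕ, ∑ j, β j = k ∧ w = ∑ j, β j * l j

theorem SuppIn.mul {L : Type} [Field L] {l : Fin r → ℕ} {k k' : ℕ} {p q : Polynomial L}
    (hp : SuppIn l k p) (hq : SuppIn l k' q) : SuppIn l (k + k') (p * q) := by
  intro w hw
  rw [Polynomial.coeff_mul] at hw
  obtain ⟨x, hx, hxw⟩ := Finset.exists_ne_zero_of_sum_ne_zero hw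
  obtain ⟨β, hβ, h1⟩ := hp x.1 (left_ne_zero_of_mul hxw)
  obtain ⟨γ, hγ, h2⟩ := hq x.2 (right_ne_zero_of_mul hxw)
  refine ⟨fun j => β j + γ j, by rw [sum_add_distrib, hβ, hγ], ?_⟩
  rw [← Finset.HasAntidiagonal.mem_antidiagonal.1 hx, h1, h2, ← sum_add_distrib]
  exact sum_congr rfl fun j _ => by ring

theorem SuppIn.const {L : Type} [Field L] (l : Fin r → ℕ) (a : L) :
    SuppIn l 0 (Polynomial.C a) := by
  intro w hw
  refine ⟨fun _ => 0, by simp, ?_⟩
  rw [Polynomial.coeff_C] at hw
  by_contra h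
  apply hw
  rw [if_neg]
  simpa using h

theorem SuppIn.pow {L : Type} [Field L] {l : Fin r → ℕ} {p : Polynomial L}
    (hp : SuppIn l 1 p) (a : ℕ) : SuppIn l a (p ^ a) := by
  induction a with
  | zero =>
    rw [pow_zero, ← Polynomial.C_1]
    exact SuppIn.const l 1
  | succ a ih =>
    rw [pow_succ]
    exact ih.mul hp

theorem suppIn_acur {L : Type} [Field L] (c : Fin r → Fin n → L) (l : Fin r → ℕ) (i : Fin n) :
    SuppIn l 1 (acur c l i) := by
  classical
  intro w hw
  unfold acur at hw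
  rw [Polynomial.finsetSum_coeff] at hw
  obtain ⟨j, -, hj⟩ := Finset.exists_ne_zero_of_sum_ne_zero hw
  rw [Polynomial.coeff_C_mul_X_pow] at hj
  have hwj : w = l j := by
    by_contra h
    exact hj (if_neg h)
  exact ⟨fun a => if a = j then 1 else 0, by simp, by simp [hwj]⟩

theorem SuppIn.prod {L : Type} [Field L] {l : Fin r → ℕ} (p : Fin n → Polynomial L)
    (hp : ∀ i, SuppIn l 1 (p i)) (α : Fin n → ℕ) (S : Finset (Fin n)) :
    SuppIn l (∑ i ∈ S, α i) (∏ i ∈ S, p i ^ α i) := by
  classical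
  induction S using Finset.induction_on with
  | empty =>
    rw [sum_empty, prod_empty, ← Polynomial.C_1]
    exact SuppIn.const l 1
  | insert a S ha ih =>
    rw [sum_insert ha, prod_insert ha]
    exact ((hp a).pow _).mul ih

/-- the number of terms of `F (∑ c j T ^ (l j))` -/
theorem card_support_acur {R L : Type} [CommRing R] [Field L] (φ : R →+* L)
    (c : Fin r → Fin n → L) (l : Fin r → ℕ) (F : MvPolynomial (Fin n) R) (d : ℕ)
    (hF : F.totalDegree ≤ d) :
    (eval₂ (Polynomial.C.comp φ) (acur c l) F).support.card ≤ (d + 1) ^ r := by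
  classical
  have h1 : (eval₂ (Polynomial.C.comp φ) (acur c l) F).support ⊆
      (univ : Finset (Fin r → Fin (d + 1))).image fun α => ∑ j, (α j : ℕ) * l j := by
    intro w hw
    rw [Polynomial.mem_support_iff, eval₂_eq', Polynomial.finsetSum_coeff] at hw
    obtain ⟨α, hα, hαw⟩ := Finset.exists_ne_zero_of_sum_ne_zero hw
    have h2 := (SuppIn.const l (φ (F.coeff α))).mul
      (SuppIn.prod (acur c l) (suppIn_acur c l) α univ)
    obtain ⟨β, hβ, hw'⟩ := h2 w hαw
    rw [zero_add] at hβ
    have h3 : ∑ i, α i ≤ d := by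
      refine le_trans ?_ hF
      have := MvPolynomial.le_totalDegree hα
      refine le_trans (le_of_eq ?_) this
      rw [Finsupp.sum_fintype _ _ (fun _ => rfl)]
    rw [mem_image]
    refine ⟨fun j => ⟨β j, ?_⟩, mem_univ _, hw'.symm⟩
    have h4 : β j ≤ ∑ i, β i := Finset.single_le_sum (f := β) (fun _ _ => Nat.zero_le _)
      (Finset.mem_univ j)
    omega
  refine (card_le_card h1).trans (card_image_le.trans ?_)
  simp

theorem eval₂_eval' {R A : Type} [CommRing R] [CommRing A] (φ : R →+* A)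
    (p : Fin n → Polynomial A) (G : MvPolynomial (Fin n) R) (u : A) :
    (eval₂ (Polynomial.C.comp φ) p G).eval u = eval₂ φ (fun j => (p j).eval u) G := by
  rw [← Polynomial.coe_evalRingHom, eval₂_comp_left]
  congr 1
  ext r
  simp

theorem eval₂_map'' {R A A' : Type} [CommRing R] [CommRing A] [CommRing A'] (φ : R →+* A)
    (g : A →+* A') (p : Fin n → Polynomial A) (G : MvPolynomial (Fin n) R) :
    (eval₂ (Polynomial.C.comp φ) p G).map g =
      eval₂ (Polynomial.C.comp (g.comp φ)) (fun j => (p j).map g) G := by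
  rw [← Polynomial.coe_mapRingHom, eval₂_comp_left]
  congr 1
  · ext r
    simp

/-- a nonconstant polynomial map from the line to the variety `F = 0`, with an image which is not
contained in `G = 0` -/
structure ACur {R A ι κ : Type} [CommRing R] [Field A] (φ : R →+* A)
    (F : ι → MvPolynomial (Fin n) R) (G : κ → MvPolynomial (Fin n) R)
    (p : Fin n → Polynomial A) : Prop where
  zero : ∀ i, eval₂ (Polynomial.C.comp φ) p (F i) = 0
  ne : ∃ i, eval₂ (Polynomial.C.comp φ) p (G i) ≠ 0
  nc : ∃ j i, 1 ≤ i ∧ (p j).coeff i ≠ 0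

/-- **Specialization.** -/
theorem ACur.spec {R k E ι κ : Type} [CommRing R] [Field k] [Field E] [Algebra k E] (φ : R →+* k)
    {F : ι → MvPolynomial (Fin n) R} {G : κ → MvPolynomial (Fin n) R}
    {p : Fin n → Polynomial E} (h : ACur ((algebraMap k E).comp φ) F G p) :
    ∃ (L : Type) (_ : Field L) (_ : Algebra k L) (_ : FiniteDimensional k L)
      (p' : Fin n → Polynomial L), ACur ((algebraMap k L).comp φ) F G p' := by
  classical
  obtain ⟨h1, ⟨g, hne⟩, j, i, hi1, hc⟩ := h
  set cc : E := (p j).coeff i with hcc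
  let s : Finset E := (Finset.univ.biUnion fun j => (p j).coeffs) ∪
    {cc⁻¹, (eval₂ (Polynomial.C.comp ((algebraMap k E).comp φ)) p (G g)).leadingCoeff⁻¹}
  let A := Algebra.adjoin k (s : Set E)
  have hs : ∀ x ∈ s, x ∈ A := fun x hx => Algebra.subset_adjoin hx
  have hA : Algebra.FiniteType k A :=
    ⟨(Subalgebra.fg_top A).2 ⟨s, rfl⟩⟩
  obtain ⟨m, hm⟩ := Ideal.exists_maximal A
  let _ : Field (A ⧸ m) := Ideal.Quotient.field m
  have hft : Algebra.FiniteType k (A ⧸ m) :=
    Algebra.FiniteType.of_surjective (Ideal.Quotient.mkₐ k m) Ideal.Quotient.mk_surjective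
  have hfin : Module.Finite k (A ⧸ m) := finite_of_finite_type_of_isJacobsonRing k (A ⧸ m)
  let θ : A →ₐ[k] A ⧸ m := Ideal.Quotient.mkₐ k m
  -- lifts
  have hlift : ∀ j, ∃ q : Polynomial A, q.map (algebraMap A E) = p j := by
    intro j
    have h2 : p j ∈ Polynomial.lifts (algebraMap A E) := by
      rw [Polynomial.lifts_iff_coeff_lifts]
      intro t
      by_cases ht : (p j).coeff t = 0
      · exact ⟨0, by rw [ht, map_zero]⟩
      · refine ⟨⟨(p j).coeff t, hs _ ?_⟩, rfl⟩
        exact Finset.mem_union_left _ (Finset.mem_biUnion.2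
          ⟨j, Finset.mem_univ _, Polynomial.coeff_mem_coeffs ht⟩)
    exact (Polynomial.mem_lifts _).1 h2
  choose P hP using hlift
  have hinj : Function.Injective (algebraMap A E) := Subtype.val_injective
  have hcur : ∀ G, (eval₂ (Polynomial.C.comp ((algebraMap k A).comp φ)) P G).map
      (algebraMap A E) = eval₂ (Polynomial.C.comp ((algebraMap k E).comp φ)) p G := by
    intro G
    rw [eval₂_map'']
    congr 1
    funext j
    exact hP j
  have hcur' : ∀ G, (eval₂ (Polynomial.C.comp ((algebraMap k A).comp φ)) P G).map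
      (θ : A →+* A ⧸ m) = eval₂ (Polynomial.C.comp ((algebraMap k (A ⧸ m)).comp φ))
        (fun j => (P j).map (θ : A →+* A ⧸ m)) G := by
    intro G
    rw [eval₂_map'']
    congr 1
  have hunit : ∀ x : A, ((x : E))⁻¹ ∈ s → (x : E) ≠ 0 → θ x ≠ 0 := by
    intro x hx hx0 h0
    have h2 : x * ⟨_, hs _ hx⟩ = 1 := Subtype.ext (mul_inv_cancel₀ hx0)
    have h3 := congrArg θ h2
    rw [map_mul, h0, zero_mul, map_one] at h3
    exact zero_ne_one h3
  have hPc : ∀ j i, (((P j).coeff i : A) : E) = (p j).coeff i := by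
    intro j i
    rw [← hP j, Polynomial.coeff_map]
    rfl
  refine ⟨A ⧸ m, inferInstance, inferInstance, hfin, fun j => (P j).map (θ : A →+* A ⧸ m),
    ⟨fun i => ?_, ⟨g, ?_⟩, j, i, hi1, ?_⟩⟩
  · have h2 : eval₂ (Polynomial.C.comp ((algebraMap k A).comp φ)) P (F i) = 0 := by
      apply Polynomial.map_injective _ hinj
      rw [hcur, h1 i, Polynomial.map_zero]
    rw [← hcur', h2, Polynomial.map_zero]
  · rw [← hcur']
    intro h0
    set q := eval₂ (Polynomial.C.comp ((algebraMap k A).comp φ)) P (G g) with hq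
    have h2 : (q.leadingCoeff : E) =
        (eval₂ (Polynomial.C.comp ((algebraMap k E).comp φ)) p (G g)).leadingCoeff := by
      rw [← hcur, Polynomial.leadingCoeff_map_of_injective hinj]
      rfl
    refine hunit q.leadingCoeff ?_ ?_ ?_
    · rw [h2]
      simp [s]
    · rw [h2]
      exact Polynomial.leadingCoeff_ne_zero.2 hne
    · have h3 := congrArg (fun f => Polynomial.coeff f q.natDegree) h0
      simp only [Polynomial.coeff_map, Polynomial.coeff_zero] at h3
      exact h3
  · simp only [Polynomial.coeff_map]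
    refine hunit ((P j).coeff i) ?_ ?_
    · rw [hPc]
      simp [s, hcc]
    · rw [hPc]
      exact hc

/-- **few points on one curve** -/
theorem one_curve_aff {R L ι : Type} [CommRing R] [Field L] [CharZero L] (φ : R →+* L)
    (F : ι → MvPolynomial (Fin n) R) (d : ℕ) (hF : ∀ i, (F i).totalDegree ≤ d)
    (Q : (Fin n → L) → Prop)
    (hQ : ∀ (p : Fin n → Polynomial L), (∀ i, eval₂ (Polynomial.C.comp φ) p (F i) = 0) →
        (∃ t : L, Q fun i => (p i).eval t) → ∀ i, ∃ a, p i = Polynomial.C a)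
    (c : Fin r → Fin n → L) (l : Fin r → ℕ) (T : Finset ℕ)
    (hT : ∀ p ∈ T, 0 < p ∧
      (∀ i, eval₂ φ (fun i => ∑ j, c j i * (p : L) ^ (l j)) (F i) = 0) ∧
      Q (fun i => ∑ j, c j i * (p : L) ^ (l j))) :
    T.card ≤ (d + 1) ^ r ∨ ∀ p ∈ T, ∀ q ∈ T, ∀ i,
      (∑ j, c j i * (p : L) ^ (l j)) = (∑ j, c j i * (q : L) ^ (l j)) := by
  classical
  by_cases hall : ∀ i, eval₂ (Polynomial.C.comp φ) (acur c l) (F i) = 0
  · right
    intro p hp q hq i
    obtain ⟨hp0, hpF, hpQ⟩ := hT p hp
    obtain ⟨a, ha⟩ := hQ (acur c l) hall ⟨(p : L), by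
      simpa only [acur_eval] using hpQ⟩ i
    rw [← acur_eval, ← acur_eval, ha, Polynomial.eval_C, Polynomial.eval_C]
  · left
    push Not at hall
    obtain ⟨i, hne⟩ := hall
    have h1 := card_nat_roots _ hne T (by
      intro p hp
      obtain ⟨hp0, hpF, hpG⟩ := hT p hp
      refine ⟨hp0, ?_⟩
      rw [eval₂_eval']
      simp only [acur_eval]
      exact hpF i)
    exact h1.le.trans (card_support_acur φ c l (F i) d (hF i))

/-- the points represented by the `P m`, `1 ≤ m ≤ N`, with the property `Q` -/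
def affPts {L : Type} [Field L] (Q : (Fin n → L) → Prop) (P : ℕ → Fin n → L) (N : ℕ) :
    Set (Fin n → L) :=
  {x | ∃ m, 1 ≤ m ∧ m ≤ N ∧ Q (P m) ∧ P m = x}

theorem affPts_finite {L : Type} [Field L] (Q : (Fin n → L) → Prop) (P : ℕ → Fin n → L) (N : ℕ) :
    (affPts Q P N).Finite := by
  refine ((Finset.Icc 1 N).finite_toSet.image P).subset ?_
  rintro x ⟨m, h1, h2, -, rfl⟩
  exact ⟨m, by simp [h1, h2], rfl⟩

theorem aff_bound {R L ι : Type} [CommRing R] [Field L] [CharZero L] (φ : R →+* L)
    (F : ι → MvPolynomial (Fin n) R) (d : ℕ) (hF : ∀ i, (F i).totalDegree ≤ d)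
    (Q : (Fin n → L) → Prop) (hQF : ∀ v, Q v → ∀ i, eval₂ φ v (F i) = 0)
    (hQ : ∀ (p : Fin n → Polynomial L), (∀ i, eval₂ (Polynomial.C.comp φ) p (F i) = 0) →
        (∃ t : L, Q fun i => (p i).eval t) → ∀ i, ∃ a, p i = Polynomial.C a)
    (s : ℕ) (P : ℕ → Fin n → L) (hP : AffCurves r s P) (N : ℕ) (hN : 1 ≤ N) :
    ((affPts Q P N).ncard : ℝ) ≤
      (s * (d + 1) ^ r + 60000) * N * Real.exp (-(√(Real.log N) / 4)) := by
  classical
  have hK : ∀ m, 1 ≤ m → ∀ T : Finset ℕ, (∀ p ∈ T, Above m p ∧ Q (P (m * p))) →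
      ((fun p => P (m * p)) '' (T : Set ℕ)).ncard ≤ s * (d + 1) ^ r := by
    intro m hm T hT
    obtain ⟨c, l, hcl⟩ := hP m hm
    let Tj : Fin s → Finset ℕ := fun j => T.filter fun p =>
      ∀ i, P (m * p) i = ∑ a, c j a i * (p : L) ^ (l j a)
    have hcov : ((fun p => P (m * p)) '' (T : Set ℕ)) ⊆
        (((univ : Finset (Fin s)).biUnion fun j => (Tj j).image fun p => P (m * p) :
          Finset (Fin n → L)) : Set (Fin n → L)) := by
      rintro _ ⟨p, hp, rfl⟩
      obtain ⟨j, h⟩ := hcl p (hT p hp).1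
      rw [mem_coe, mem_biUnion]
      exact ⟨j, mem_univ _, mem_image_of_mem _ (mem_filter.2 ⟨hp, h⟩)⟩
    have h1 := Set.ncard_le_ncard hcov (Finset.finite_toSet _)
    rw [Set.ncard_coe_finset] at h1
    refine h1.trans (card_biUnion_le.trans ?_)
    have hpt : ∀ j, ∀ p ∈ Tj j, 0 < p ∧
        (∀ i, eval₂ φ (fun i => ∑ a, c j a i * (p : L) ^ (l j a)) (F i) = 0) ∧
        Q (fun i => ∑ a, c j a i * (p : L) ^ (l j a)) := by
      intro j p hp
      obtain ⟨hpT, h⟩ := mem_filter.1 hp
      obtain ⟨habove, hq⟩ := hT p hpT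
      have hq' : Q (fun i => ∑ a, c j a i * (p : L) ^ (l j a)) := by
        rw [← funext h]
        exact hq
      exact ⟨habove.1.pos, hQF _ hq', hq'⟩
    calc ∑ j, ((Tj j).image fun p => P (m * p)).card ≤ ∑ _j : Fin s, (d + 1) ^ r := by
          refine sum_le_sum fun j _ => ?_
          rcases one_curve_aff φ F d hF Q hQ (c j) (l j) (Tj j) (hpt j) with h2 | h2
          · exact card_image_le.trans h2
          · have h3 : ((Tj j).image fun p => P (m * p)).card ≤ 1 := by
              rw [card_le_one]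
              intro a ha b hb
              obtain ⟨p, hp, rfl⟩ := mem_image.1 ha
              obtain ⟨q, hq, rfl⟩ := mem_image.1 hb
              obtain ⟨hpT, hpu⟩ := mem_filter.1 hp
              obtain ⟨hqT, hqv⟩ := mem_filter.1 hq
              funext i
              rw [hpu i, hqv i]
              exact h2 p hp q hq i
            exact h3.trans (Nat.one_le_pow _ _ (by omega))
      _ = s * (d + 1) ^ r := by simp
  have hcount := count_points P (fun m => Q (P m)) (s * (d + 1) ^ r) hK N hN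
  calc ((affPts Q P N).ncard : ℝ) ≤ _ := hcount
    _ = _ := by push_cast; ring

/-- **many different points on a polynomial curve** -/
theorem aff_lower {L : Type} [Field L] [CharZero L] (p : Fin n → Polynomial L)
    (hnc : ∃ j i, 1 ≤ i ∧ (p j).coeff i ≠ 0)
    (Q : (Fin n → L) → Prop) (q₀ : Polynomial L) (hq₀ : q₀ ≠ 0)
    (hQ : ∀ m : ℕ, q₀.eval (m : L) ≠ 0 → Q (fun i => (p i).eval (m : L))) :
    ∃ (D : ℕ) (δ : ℝ), 0 < δ ∧ AffCurves D 1 (fun (m : ℕ) (i : Fin n) =>
        (p i).eval (m : L)) ∧ ∃ N₀ : ℕ, ∀ N : ℕ, N₀ ≤ N →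
          δ * N ≤ ((affPts Q (fun (m : ℕ) (i : Fin n) => (p i).eval (m : L)) N).ncard : ℝ) := by
  classical
  set D : ℕ := ∑ i, (p i).natDegree + 1 with hD
  have hDi : ∀ i, (p i).natDegree < D := by
    intro i
    have := Finset.single_le_sum (f := fun i => (p i).natDegree) (fun _ _ => Nat.zero_le _)
      (Finset.mem_univ i)
    rw [hD]
    exact Nat.lt_succ_of_le this
  set P : ℕ → Fin n → L := fun m i => (p i).eval (m : L) with hP
  set Dg : ℕ := q₀.natDegree with hDg
  have hDpos : 0 < D := by omega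
  have hDR : (0 : ℝ) < D := by exact_mod_cast hDpos
  have hPC : AffCurves D 1 P := by
    intro m _
    refine ⟨fun _ a i => (p i).coeff a * (m : L) ^ (a : ℕ), fun _ a => a, fun q _ => ⟨0, ?_⟩⟩
    intro i
    simp only [hP]
    rw [Polynomial.eval_eq_sum_range' (hDi i), Finset.sum_range]
    refine sum_congr rfl fun a _ => ?_
    push_cast
    ring
  refine ⟨D, 1 / (2 * D), by positivity, hPC, 2 * (Dg + 1), fun N hN => ?_⟩
  obtain ⟨j₀, i₀, hi₀, hji⟩ := hnc
  -- for a given point there are few values of `m`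
  have hfib : ∀ x : Fin n → L, ∀ T : Finset ℕ, (∀ m ∈ T, P m = x) → T.card ≤ D := by
    intro x T hT
    set q : Polynomial L := p j₀ - Polynomial.C (x j₀) with hq
    have hq0 : q ≠ 0 := by
      intro h0
      have h1 := congrArg (fun f => Polynomial.coeff f i₀) h0
      simp only [hq, Polynomial.coeff_sub, Polynomial.coeff_zero, Polynomial.coeff_C] at h1
      rw [if_neg (by omega), sub_zero] at h1
      exact hji h1
    have hsub : T.image (fun m : ℕ => (m : L)) ⊆ q.roots.toFinset := by
      intro x' hx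
      obtain ⟨m, hm, rfl⟩ := Finset.mem_image.1 hx
      rw [Multiset.mem_toFinset, Polynomial.mem_roots hq0, Polynomial.IsRoot, hq]
      simp only [Polynomial.eval_sub, Polynomial.eval_C]
      have := congrFun (hT m hm) j₀
      exact sub_eq_zero.2 this
    have hc1 : T.card ≤ q.natDegree := by
      rw [← Finset.card_image_of_injective T (Nat.cast_injective (R := L))]
      exact (Finset.card_le_card hsub).trans ((Multiset.toFinset_card_le _).trans
        (Polynomial.card_roots' q))
    refine hc1.trans ?_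
    rw [hq, Polynomial.natDegree_sub_C]
    exact (hDi j₀).le
  set A : Finset ℕ := (Finset.Icc 1 N).filter fun m => q₀.eval (m : L) ≠ 0 with hA
  have hAc : N ≤ A.card + Dg := by
    have h4 : ((Finset.Icc 1 N).filter fun m : ℕ => q₀.eval (m : L) = 0).card ≤ Dg := by
      have hsub : ((Finset.Icc 1 N).filter fun m : ℕ => q₀.eval (m : L) = 0).image
          (fun m : ℕ => (m : L)) ⊆ q₀.roots.toFinset := by
        intro x hx
        obtain ⟨m, hm, rfl⟩ := Finset.mem_image.1 hx
        rw [Multiset.mem_toFinset, Polynomial.mem_roots hq₀, Polynomial.IsRoot]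
        exact (Finset.mem_filter.1 hm).2
      rw [← Finset.card_image_of_injective _ (Nat.cast_injective (R := L))]
      exact (Finset.card_le_card hsub).trans ((Multiset.toFinset_card_le _).trans
        (Polynomial.card_roots' _))
    have h5 := Finset.card_filter_add_card_filter_not (s := Finset.Icc 1 N)
      (fun m : ℕ => q₀.eval (m : L) = 0)
    rw [Nat.card_Icc, Nat.add_sub_cancel] at h5
    have h6 : A.card = ((Finset.Icc 1 N).filter fun m : ℕ => ¬ q₀.eval (m : L) = 0).card := rfl
    omega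
  have hfc : A.card ≤ D * (A.image P).card := by
    refine Finset.card_le_mul_card_image A D ?_
    intro x hx
    refine hfib x _ ?_
    intro m hm
    exact (Finset.mem_filter.1 hm).2
  have hle : (A.image P).card ≤ (affPts Q P N).ncard := by
    rw [← Set.ncard_coe_finset]
    refine Set.ncard_le_ncard ?_ (affPts_finite Q P N)
    intro x hx
    rw [Finset.mem_coe] at hx
    obtain ⟨m, hm, rfl⟩ := Finset.mem_image.1 hx
    obtain ⟨hmI, hmG⟩ := Finset.mem_filter.1 hm
    rw [Finset.mem_Icc] at hmI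
    exact ⟨m, hmI.1, hmI.2, hQ m hmG, rfl⟩
  have h10 : (A.card : ℝ) ≤ D * ((affPts Q P N).ncard : ℝ) := by
    exact_mod_cast hfc.trans (Nat.mul_le_mul_left D hle)
  have h11 : (N : ℝ) ≤ A.card + Dg := by exact_mod_cast hAc
  have h12 : 2 * ((Dg : ℝ) + 1) ≤ N := by exact_mod_cast hN
  rw [div_mul_eq_mul_div, one_mul, div_le_iff₀ (by positivity)]
  linarith

end Pool.Agent.X331.AF
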