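import Pool.Agent.X331.AF.Smooth

set_option autoImplicit false

/-! # Counting the values of a function that takes few values on each progression `m p` -/

namespace Pool.Agent.X331.AF

open Finset Real

/-- `p` is a prime number, larger than all prime factors of `m` -/
def Above (m p : ℕ) : Prop := p.Prime ∧ ∀ q : ℕ, q.Prime → q ∣ m → q < p

/-- integers up to `N` divisible by the square of an integer `≥ k₀` -/
theorem card_sq (N k₀ : ℕ) (hk : 2 ≤ k₀) (S : Finset ℕ)
    (hS : ∀ n ∈ S, 1 ≤ n ∧ n ≤ N ∧ ∃ p, k₀ ≤ p ∧ p ^ 2 ∣ n) :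
    (S.card : ℝ) ≤ 2 * N / k₀ := by
  classical
  have h1 : S ⊆ (Ioc (k₀ - 1) N).biUnion fun p => (Icc 1 (N / p ^ 2)).image fun a => p ^ 2 * a := by
    intro n hn
    obtain ⟨hn1, hn2, p, hp, hpn⟩ := hS n hn
    obtain ⟨a, rfl⟩ := hpn
    have hp0 : 0 < p ^ 2 := Nat.pow_pos (by omega)
    have ha : 1 ≤ a := by
      rcases Nat.eq_zero_or_pos a with h | h
      · rw [h] at hn1; simp at hn1
      · exact h
    rw [mem_biUnion]
    refine ⟨p, ?_, ?_⟩
    · rw [mem_Ioc]
      refine ⟨by omega, ?_⟩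
      calc p ≤ p ^ 2 := by nlinarith
        _ ≤ p ^ 2 * a := Nat.le_mul_of_pos_right _ ha
        _ ≤ N := hn2
    · rw [mem_image]
      refine ⟨a, ?_, rfl⟩
      rw [mem_Icc]
      refine ⟨ha, ?_⟩
      rw [Nat.le_div_iff_mul_le hp0, mul_comm]
      exact hn2
  have h2 : (S.card : ℝ) ≤ ∑ p ∈ Ioc (k₀ - 1) N, (N : ℝ) * ((p : ℝ) ^ 2)⁻¹ := by
    have h3 : S.card ≤ ∑ p ∈ Ioc (k₀ - 1) N, N / p ^ 2 := by
      refine (card_le_card h1).trans (card_biUnion_le.trans ?_)
      refine sum_le_sum fun p _ => ?_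
      refine card_image_le.trans ?_
      simp
    calc (S.card : ℝ) ≤ ((∑ p ∈ Ioc (k₀ - 1) N, N / p ^ 2 : ℕ) : ℝ) := by exact_mod_cast h3
      _ = ∑ p ∈ Ioc (k₀ - 1) N, ((N / p ^ 2 : ℕ) : ℝ) := by push_cast; rfl
      _ ≤ _ := by
        refine sum_le_sum fun p _ => ?_
        refine Nat.cast_div_le.trans (le_of_eq ?_)
        push_cast
        rw [div_eq_mul_inv]
  refine h2.trans ?_
  rw [← mul_sum]
  rcases le_or_gt (k₀ - 1) N with hle | hgt
  · have h3 := sum_Ioc_inv_sq_le_sub (α := ℝ) (k := k₀ - 1) (n := N) (by omega) hle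
    have h4 : ((k₀ - 1 : ℕ) : ℝ) = k₀ - 1 := by
      rw [Nat.cast_sub (by omega)]; simp
    rw [h4] at h3
    have hk' : (2 : ℝ) ≤ k₀ := by exact_mod_cast hk
    have h5 : ((k₀ : ℝ) - 1)⁻¹ ≤ 2 / k₀ := by
      rw [inv_eq_one_div, div_le_div_iff₀ (by linarith) (by linarith)]
      linarith
    have h6 : 0 ≤ (N : ℝ)⁻¹ := by positivity
    calc (N : ℝ) * ∑ i ∈ Ioc (k₀ - 1) N, ((i : ℝ) ^ 2)⁻¹ ≤ N * (2 / k₀) :=
          mul_le_mul_of_nonneg_left (by linarith) (Nat.cast_nonneg N)
      _ = 2 * N / k₀ := by ring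
  · rw [Ioc_eq_empty (by omega), sum_empty, mul_zero]
    positivity

theorem count_points {α : Type} (f : ℕ → α) (good : ℕ → Prop) (K : ℕ)
    (hK : ∀ m, 1 ≤ m → ∀ T : Finset ℕ, (∀ p ∈ T, Above m p ∧ good (m * p)) →
      ((fun p => f (m * p)) '' (T : Set ℕ)).ncard ≤ K)
    (N : ℕ) (hN : 1 ≤ N) :
    (({x | ∃ n, 1 ≤ n ∧ n ≤ N ∧ good n ∧ f n = x} : Set α).ncard : ℝ) ≤
      (K + 60000) * N * exp (-(√(log N) / 4)) := by
  classical
  have hNR : (1 : ℝ) ≤ N := by exact_mod_cast hN
  set A : Finset ℕ := (Icc 1 N).filter good with hA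
  have hset : ({x | ∃ n, 1 ≤ n ∧ n ≤ N ∧ good n ∧ f n = x} : Set α) = ((A.image f : Finset α) : Set α) := by
    ext x
    simp only [Set.mem_ofPred_eq, coe_image, Set.mem_image, mem_coe, hA, mem_filter, mem_Icc]
    constructor
    · rintro ⟨n, h1, h2, h3, h4⟩
      exact ⟨n, ⟨⟨h1, h2⟩, h3⟩, h4⟩
    · rintro ⟨n, ⟨⟨h1, h2⟩, h3⟩, h4⟩
      exact ⟨n, h1, h2, h3, h4⟩
  rw [hset, Set.ncard_coe_finset]
  set L : ℝ := √(log N) with hL
  have hL0 : 0 ≤ L := Real.sqrt_nonneg _
  have hLsq : L * L = log N := Real.mul_self_sqrt (Real.log_nonneg hNR)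
  have hE : 0 < exp (-(L / 4)) := Real.exp_pos _
  rcases lt_or_ge L 8 with hL8 | hL8
  · have h1 : ((A.image f).card : ℝ) ≤ N := by
      have h2 : (A.image f).card ≤ N := by
        refine card_image_le.trans ((card_filter_le _ _).trans ?_)
        simp
      exact_mod_cast h2
    have h2 : exp (-2) ≤ exp (-(L / 4)) := by
      rw [Real.exp_le_exp]; linarith
    have h3 : (1 : ℝ) ≤ 60000 * exp (-2) := by
      rw [Real.exp_neg, ← div_eq_mul_inv, one_le_div (Real.exp_pos _)]
      have h4 : exp 2 = exp 1 * exp 1 := by rw [← Real.exp_add]; norm_num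
      have := Real.exp_one_lt_d9
      have h5 := Real.exp_pos 1
      rw [h4]
      nlinarith
    have h4 : (1 : ℝ) ≤ (K + 60000) * exp (-(L / 4)) := by
      have h5 : (0 : ℝ) ≤ K := Nat.cast_nonneg K
      nlinarith
    calc ((A.image f).card : ℝ) ≤ N * 1 := by linarith
      _ ≤ N * ((K + 60000) * exp (-(L / 4))) := by
          refine mul_le_mul_of_nonneg_left h4 (by linarith)
      _ = _ := by ring
  · set t : ℝ := L / 4 with ht
    have ht2 : 2 ≤ t := by linarith
    set k₀ : ℕ := ⌈exp t⌉₊ with hk₀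
    have hk₀t : exp t ≤ k₀ := Nat.le_ceil _
    have hexpt : 2 ≤ exp t := by
      have := Real.add_one_le_exp t
      linarith
    have hk2 : 2 ≤ k₀ := by
      have : (2 : ℝ) ≤ k₀ := hexpt.trans hk₀t
      exact_mod_cast this
    set M : ℕ := ⌊(N : ℝ) / exp t⌋₊ with hM
    set A1 : Finset ℕ := A.filter fun n => ∀ p : ℕ, p.Prime → p ∣ n → (p : ℝ) < exp t with hA1
    set A2 : Finset ℕ := A.filter fun n => ∃ p, k₀ ≤ p ∧ p ^ 2 ∣ n with hA2
    -- the remaining integers
    have hcov : A.image f ⊆ A1.image f ∪ A2.image f ∪ (Icc 1 M).biUnion fun m =>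
        (((Icc 1 N).filter fun p => Above m p ∧ good (m * p)).image fun p => f (m * p)) := by
      intro x hx
      obtain ⟨n, hn, rfl⟩ := mem_image.1 hx
      by_cases h1 : n ∈ A1
      · exact mem_union_left _ (mem_union_left _ (mem_image_of_mem _ h1))
      by_cases h2 : n ∈ A2
      · exact mem_union_left _ (mem_union_right _ (mem_image_of_mem _ h2))
      refine mem_union_right _ ?_
      rw [hA1, mem_filter, not_and] at h1
      have h1' := h1 hn
      push Not at h1'
      obtain ⟨p₀, hp₀, hp₀n, hp₀t⟩ := h1'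
      rw [hA, mem_filter, mem_Icc] at hn
      obtain ⟨⟨hn1, hn2⟩, hgood⟩ := hn
      have hn0 : n ≠ 0 := by omega
      have hne : n.primeFactors.Nonempty := ⟨p₀, Nat.mem_primeFactors.2 ⟨hp₀, hp₀n, hn0⟩⟩
      set p := n.primeFactors.max' hne with hp
      have hpm := Nat.mem_primeFactors.1 (n.primeFactors.max'_mem hne)
      rw [← hp] at hpm
      have hp₀p : p₀ ≤ p := n.primeFactors.le_max' _ (Nat.mem_primeFactors.2 ⟨hp₀, hp₀n, hn0⟩)
      have hpt : exp t ≤ p := hp₀t.trans (by exact_mod_cast hp₀p)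
      have hpk : k₀ ≤ p := Nat.ceil_le.2 hpt
      obtain ⟨m, hm⟩ := hpm.2.1
      have hm1 : 1 ≤ m := by
        rcases Nat.eq_zero_or_pos m with h | h
        · rw [h] at hm; omega
        · exact h
      have hpm' : ¬ p ∣ m := by
        rintro ⟨a, rfl⟩
        apply h2
        rw [hA2, mem_filter, hA, mem_filter, mem_Icc]
        exact ⟨⟨⟨hn1, hn2⟩, hgood⟩, p, hpk, a, by rw [hm]; ring⟩
      have hn' : n = m * p := by rw [hm, mul_comm]
      have hmM : m ≤ M := by
        rw [hM]
        apply Nat.le_floor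
        rw [le_div_iff₀ (Real.exp_pos t)]
        calc (m : ℝ) * exp t ≤ m * p := mul_le_mul_of_nonneg_left hpt (Nat.cast_nonneg m)
          _ = ((m * p : ℕ) : ℝ) := by push_cast; ring
          _ ≤ N := by
            rw [← hn']
            exact_mod_cast hn2
      rw [mem_biUnion]
      refine ⟨m, mem_Icc.2 ⟨hm1, hmM⟩, ?_⟩
      rw [mem_image]
      refine ⟨p, ?_, by rw [hn']⟩
      rw [mem_filter, mem_Icc]
      refine ⟨⟨hpm.1.one_le, ?_⟩, ⟨hpm.1, ?_⟩, by rw [← hn']; exact hgood⟩
      · exact (Nat.le_of_dvd hn1 hpm.2.1).trans hn2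
      · intro q hq hqm
        have hqn : q ∣ n := by rw [hn']; exact hqm.mul_right p
        have hqp : q ≤ p := n.primeFactors.le_max' _ (Nat.mem_primeFactors.2 ⟨hq, hqn, hn0⟩)
        rcases hqp.lt_or_eq with h | h
        · exact h
        · exact absurd (h ▸ hqm) hpm'
    have hcard : (A.image f).card ≤ A1.card + A2.card + M * K := by
      refine (card_le_card hcov).trans ((card_union_le _ _).trans ?_)
      refine Nat.add_le_add ((card_union_le _ _).trans (Nat.add_le_add card_image_le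
        card_image_le)) ?_
      refine card_biUnion_le.trans ?_
      calc ∑ m ∈ Icc 1 M, (((Icc 1 N).filter fun p => Above m p ∧ good (m * p)).image
            fun p => f (m * p)).card ≤ ∑ m ∈ Icc 1 M, K := by
            refine sum_le_sum fun m hm => ?_
            have h1 := hK m (mem_Icc.1 hm).1 ((Icc 1 N).filter fun p => Above m p ∧ good (m * p))
              (fun p hp => (mem_filter.1 hp).2)
            rw [← Finset.coe_image, Set.ncard_coe_finset] at h1
            exact h1
        _ = M * K := by simp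
    have hMN : (M : ℝ) ≤ N * exp (-t) := by
      rw [hM, Real.exp_neg, ← div_eq_mul_inv]
      exact Nat.floor_le (by positivity)
    have hA1c : (A1.card : ℝ) ≤ 59900 * (N * exp (-t)) := by
      have h1 := rankin N t ht2 A1 (by
        intro n hn
        rw [hA1, mem_filter, hA, mem_filter, mem_Icc] at hn
        exact ⟨hn.1.1.1, hn.1.1.2, hn.2⟩)
      refine h1.trans ?_
      have h2 : log N / t = 4 * L := by
        rw [← hLsq, ht]
        have : L ≠ 0 := by linarith
        field_simp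
      have h3 : -(log N / t) + 11 * (1 + t) ≤ 11 + -t := by
        rw [h2]
        linarith
      have h4 : exp 11 ≤ 59900 := by
        have h5 : exp 11 = exp 1 ^ 11 := by
          rw [← Real.exp_nat_mul]; norm_num
        rw [h5]
        have h6 := Real.exp_one_lt_d9
        calc exp 1 ^ 11 ≤ (2.7182818286 : ℝ) ^ 11 :=
              pow_le_pow_left₀ (Real.exp_pos 1).le h6.le 11
          _ ≤ 59900 := by norm_num
      calc (N : ℝ) * exp (-(log N / t) + 11 * (1 + t)) ≤ N * exp (11 + -t) := by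
            refine mul_le_mul_of_nonneg_left (Real.exp_le_exp.2 h3) (by linarith)
        _ = exp 11 * (N * exp (-t)) := by rw [Real.exp_add]; ring
        _ ≤ 59900 * (N * exp (-t)) := by
            refine mul_le_mul_of_nonneg_right h4 (by positivity)
    have hA2c : (A2.card : ℝ) ≤ 2 * (N * exp (-t)) := by
      have h1 := card_sq N k₀ hk2 A2 (by
        intro n hn
        rw [hA2, mem_filter, hA, mem_filter, mem_Icc] at hn
        exact ⟨hn.1.1.1, hn.1.1.2, hn.2⟩)
      refine h1.trans ?_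
      rw [Real.exp_neg]
      calc 2 * (N : ℝ) / k₀ ≤ 2 * N / exp t :=
            div_le_div_of_nonneg_left (by positivity) (Real.exp_pos t) hk₀t
        _ = 2 * (N * (exp t)⁻¹) := by rw [div_eq_mul_inv]; ring
    have hfin : ((A.image f).card : ℝ) ≤ A1.card + A2.card + M * K := by exact_mod_cast hcard
    have hMK : (M : ℝ) * K ≤ K * (N * exp (-t)) := by
      rw [mul_comm]
      exact mul_le_mul_of_nonneg_left hMN (Nat.cast_nonneg K)
    have hpos : 0 ≤ (N : ℝ) * exp (-t) := by positivity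
    calc ((A.image f).card : ℝ) ≤ 59900 * (N * exp (-t)) + 2 * (N * exp (-t)) +
          K * (N * exp (-t)) := by linarith
      _ ≤ (K + 60000) * N * exp (-t) := by nlinarith

end Pool.Agent.X331.AF
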