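import Pool.Agent.X331.AF.Count
import Pool.Agent.TH138.LG.Main

set_option autoImplicit false

/-! # Points of a projective variety given by arithmetic functions -/

namespace Pool.Agent.X331.AF

open Finset Pool.Agent.H533R3.SL
open scoped LinearAlgebra.Projectivization

theorem signVariations_lt (p : Polynomial ℝ) (hp : p ≠ 0) : p.signVariations < p.support.card := by
  induction hn : p.support.card using Nat.strong_induction_on generalizing p with
  | _ n ih =>
    have hpos : 0 < p.support.card := by
      rw [Finset.card_pos, Polynomial.nonempty_support_iff]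
      exact hp
    by_cases he : p.eraseLead = 0
    · have h1 := Polynomial.signVariations_le_eraseLead_succ (P := p)
      have h2 : p = Polynomial.monomial p.natDegree p.leadingCoeff := by
        have := p.eraseLead_add_monomial_natDegree_leadingCoeff
        rw [he, zero_add] at this
        exact this.symm
      rw [h2, Polynomial.signVariations_monomial]
      omega
    · have hc : p.eraseLead.support.card = n - 1 := by
        rw [Polynomial.card_support_eraseLead, hn]
      have h1 := Polynomial.signVariations_le_eraseLead_succ (P := p)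
      have h2 := ih (n - 1) (by omega) p.eraseLead he (by rw [hc])
      omega

/-- Descartes: the number of the positive zeros is less than the number of the terms -/
theorem card_lt_support {p : Polynomial ℝ} (hp : p ≠ 0) (s : Finset ℝ)
    (hs : ∀ x ∈ s, 0 < x ∧ p.eval x = 0) : s.card < p.support.card := by
  classical
  refine lt_of_le_of_lt ?_ (signVariations_lt p hp)
  refine le_trans ?_ (Polynomial.roots_countP_pos_le_signVariations p)
  rw [Multiset.countP_eq_card_filter]
  have hsub : s.val ≤ p.roots.filter (0 < ·) := by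
    rw [Multiset.le_iff_subset s.nodup]
    intro x hx
    rw [Multiset.mem_filter, Polynomial.mem_roots hp]
    exact ⟨(hs x hx).2, (hs x hx).1⟩
  exact Multiset.card_le_card hsub

/-- a nonzero polynomial over a field of characteristic `0` has fewer positive integral zeros than
terms -/
theorem card_nat_roots {L : Type} [Field L] [CharZero L] (f : Polynomial L) (hf : f ≠ 0)
    (T : Finset ℕ) (hT : ∀ p ∈ T, 0 < p ∧ f.eval (p : L) = 0) : T.card < f.support.card := by
  classical
  obtain ⟨w, hw⟩ : ∃ w, f.coeff w ≠ 0 := by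
    by_contra h
    push Not at h
    exact hf (Polynomial.ext fun w => by rw [h w, Polynomial.coeff_zero])
  set B := Module.Basis.ofVectorSpace ℚ L with hB
  obtain ⟨b, hb⟩ : ∃ b, B.repr (f.coeff w) b ≠ 0 := by
    by_contra h
    push Not at h
    apply hw
    have : B.repr (f.coeff w) = 0 := Finsupp.ext h
    exact B.repr.map_eq_zero_iff.1 this
  let φ : L →ₗ[ℚ] ℚ := B.coord b
  let g : Polynomial ℝ := ∑ i ∈ f.support, Polynomial.C ((φ (f.coeff i) : ℚ) : ℝ) *
    Polynomial.X ^ i
  have hgc : ∀ i, g.coeff i = if i ∈ f.support then ((φ (f.coeff i) : ℚ) : ℝ) else 0 := by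
    intro i
    simp only [g, Polynomial.finsetSum_coeff, Polynomial.coeff_C_mul_X_pow]
    rw [Finset.sum_ite_eq]
  have hg0 : g ≠ 0 := by
    intro h
    have h1 := hgc w
    rw [h, Polynomial.coeff_zero, if_pos (Polynomial.mem_support_iff.2 hw)] at h1
    exact hb (by exact_mod_cast h1.symm)
  have hgs : g.support ⊆ f.support := by
    intro i hi
    rw [Polynomial.mem_support_iff, hgc] at hi
    by_contra h
    rw [if_neg h] at hi
    exact hi rfl
  have h1 := card_lt_support hg0 (T.image fun p : ℕ => (p : ℝ)) (by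
    intro x hx
    obtain ⟨p, hp, rfl⟩ := mem_image.1 hx
    obtain ⟨hp0, hpe⟩ := hT p hp
    refine ⟨by exact_mod_cast hp0, ?_⟩
    have h2 : φ (f.eval (p : L)) = ∑ i ∈ f.support, φ (f.coeff i) * (p : ℚ) ^ i := by
      rw [Polynomial.eval_eq_sum, Polynomial.sum_def, map_sum]
      refine sum_congr rfl fun i _ => ?_
      have h3 : f.coeff i * (p : L) ^ i = ((p : ℚ) ^ i) • f.coeff i := by
        rw [Algebra.smul_def, map_pow, map_natCast, mul_comm]
      rw [h3, map_smul, smul_eq_mul, mul_comm]
    rw [hpe, map_zero] at h2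
    simp only [g, Polynomial.eval_finsetSum, Polynomial.eval_mul, Polynomial.eval_C,
      Polynomial.eval_pow, Polynomial.eval_X]
    have h3 : ((∑ i ∈ f.support, φ (f.coeff i) * (p : ℚ) ^ i : ℚ) : ℝ) = 0 := by
      rw [← h2]; simp
    push_cast at h3
    exact h3)
  rw [card_image_of_injective _ Nat.cast_injective] at h1
  exact lt_of_lt_of_le h1 (card_le_card hgs)

variable {n r : ℕ}

/-- the number of terms of `F (∑ c j T ^ (l j))` -/
theorem card_support_cur {k L : Type} [Field k] [Field L] [Algebra k L]
    (c : Fin r → Fin (n + 1) → L) (l : Fin r → ℕ) (F : MvPolynomial (Fin (n + 1)) k) (e : ℕ)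
    (hF : F.IsHomogeneous e) :
    (MvPolynomial.aeval (cur c l) F).support.card ≤ (e + 1) ^ r := by
  classical
  have h1 : (MvPolynomial.aeval (cur c l) F).support ⊆
      (univ : Finset (Fin r → Fin (e + 1))).image fun α => ∑ j, (α j : ℕ) * l j := by
    intro w hw
    rw [Polynomial.mem_support_iff, aeval_cur, Polynomial.finsetSum_coeff] at hw
    obtain ⟨α, hα, hαw⟩ := Finset.exists_ne_zero_of_sum_ne_zero hw
    rw [Polynomial.coeff_C_mul_X_pow] at hαw
    have hw' : w = ∑ j, α j * l j := by
      by_contra h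
      exact hαw (if_neg h)
    rw [mem_image]
    exact ⟨fun j => ⟨α j, Nat.lt_succ_of_le (GU_deg c F e hF α hα j)⟩, mem_univ _, hw'.symm⟩
  refine (card_le_card h1).trans (card_image_le.trans ?_)
  simp

theorem aeval_eval_cur {k L : Type} [Field k] [Field L] [Algebra k L]
    (c : Fin r → Fin (n + 1) → L) (l : Fin r → ℕ) (F : MvPolynomial (Fin (n + 1)) k) (t : L) :
    (MvPolynomial.aeval (cur c l) F).eval t =
      MvPolynomial.aeval (fun i => ∑ j, c j i * t ^ (l j)) F := by
  have h3 : (Polynomial.eval t) (MvPolynomial.aeval (cur c l) F) =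
      ((Polynomial.aeval t : Polynomial L →ₐ[L] L).restrictScalars k)
        (MvPolynomial.aeval (cur c l) F) := by
    simp [Polynomial.coe_aeval_eq_eval]
  rw [h3, ← AlgHom.comp_apply, MvPolynomial.comp_aeval]
  congr 2
  funext j
  unfold cur
  simp [Polynomial.coe_aeval_eq_eval]

/-- the vector of the arithmetic functions `P` is given, for `n = m p` with a prime number `p`
larger than all prime factors of `m`, by one of `s` curves with `r` terms, which depend on `m`:
`P (m p)` is proportional to `∑ c p ^ l` -/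
def PrimeCurves {L : Type} [Field L] (r s : ℕ) (P : ℕ → Fin (n + 1) → L) : Prop :=
  ∀ m : ℕ, 1 ≤ m → ∃ (c : Fin s → Fin r → Fin (n + 1) → L) (l : Fin s → Fin r → ℕ),
    ∀ p : ℕ, Above m p → ∃ (j : Fin s) (u : L), u ≠ 0 ∧
      ∀ i, P (m * p) i = u * ∑ a, c j a i * (p : L) ^ (l j a)

/-- the points of the variety given by `FF`, off `G = 0`, represented by `P n`, `1 ≤ n ≤ N` -/
def offPoints {k L : Type} [Field k] [Field L] [Algebra k L]
    (FF : Finset (MvPolynomial (Fin (n + 1)) k)) (G : MvPolynomial (Fin (n + 1)) k)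
    (P : ℕ → Fin (n + 1) → L) (N : ℕ) : Set (ℙ L (Fin (n + 1) → L)) :=
  {x | ∃ m, 1 ≤ m ∧ m ≤ N ∧ ∃ h : P m ≠ 0, x = Projectivization.mk L (P m) h ∧
    (∀ F ∈ FF, MvPolynomial.aeval (P m) F = 0) ∧ MvPolynomial.aeval (P m) G ≠ 0}

theorem aeval_smul_hom {k L : Type} [Field k] [Field L] [Algebra k L]
    (G : MvPolynomial (Fin (n + 1)) k) (e : ℕ) (hG : G.IsHomogeneous e) (u : L)
    (x y : Fin (n + 1) → L) (h : ∀ i, x i = u * y i) :
    MvPolynomial.aeval x G = u ^ e * MvPolynomial.aeval y G := by
  rw [← Pool.Agent.TH138.LG.aeval_mul_hom G e hG u y]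
  congr 2
  funext i
  exact h i

/-- **few points on one curve** -/
theorem one_curve {k L : Type} [Field k] [Field L] [CharZero L] [Algebra k L]
    (FF : Set (MvPolynomial (Fin (n + 1)) k)) (d : ℕ)
    (hFF : ∀ F ∈ FF, ∃ e, e ≤ d ∧ F.IsHomogeneous e)
    (G : MvPolynomial (Fin (n + 1)) k)
    (hG : ∀ (c : Fin r → Fin (n + 1) → L) (l : Fin r → ℕ),
        (∀ F ∈ FF, MvPolynomial.aeval (cur c l) F = 0) →
        (∃ i i', cur c l i * Polynomial.C (∑ j, c j i') ≠
          cur c l i' * Polynomial.C (∑ j, c j i)) →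
        MvPolynomial.aeval (fun i => ∑ j, c j i) G = 0)
    (c : Fin r → Fin (n + 1) → L) (l : Fin r → ℕ) (T : Finset ℕ)
    (hT : ∀ p ∈ T, 0 < p ∧
      (∀ F ∈ FF, MvPolynomial.aeval (fun i => ∑ j, c j i * (p : L) ^ (l j)) F = 0) ∧
      MvPolynomial.aeval (fun i => ∑ j, c j i * (p : L) ^ (l j)) G ≠ 0) :
    T.card ≤ (d + 1) ^ r ∨ ∀ p ∈ T, ∀ q ∈ T, ∀ i i',
      (∑ j, c j i * (p : L) ^ (l j)) * (∑ j, c j i' * (q : L) ^ (l j)) =
        (∑ j, c j i' * (p : L) ^ (l j)) * (∑ j, c j i * (q : L) ^ (l j)) := by
  classical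
  by_cases hall : ∀ F ∈ FF, MvPolynomial.aeval (cur c l) F = 0
  · right
    intro p hp q hq i i'
    obtain ⟨hp0, hpF, hpG⟩ := hT p hp
    have hpL : (p : L) ≠ 0 := by exact_mod_cast hp0.ne'
    let c' : Fin r → Fin (n + 1) → L := fun j i => c j i * (p : L) ^ (l j)
    have hev : ∀ (t : L) (i : Fin (n + 1)), (cur c' l i).eval t =
        ∑ j, c j i * ((p : L) * t) ^ (l j) := by
      intro t i
      unfold cur
      rw [Polynomial.eval_finsetSum]
      refine sum_congr rfl fun j _ => ?_
      simp only [c', Polynomial.eval_mul, Polynomial.eval_C, Polynomial.eval_pow,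
        Polynomial.eval_X, mul_pow]
      ring
    have hcur : ∀ F ∈ FF, MvPolynomial.aeval (cur c' l) F = 0 := by
      intro F hF
      have : Infinite L := Infinite.of_injective (fun m : ℕ => (m : L)) Nat.cast_injective
      refine Polynomial.funext fun t => ?_
      rw [aeval_eval_cur, Polynomial.eval_zero]
      have h1 := aeval_eval_cur c l F ((p : L) * t)
      rw [hall F hF, Polynomial.eval_zero] at h1
      rw [h1]
      congr 2
      funext i
      refine sum_congr rfl fun j _ => ?_
      simp only [c', mul_pow]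
      ring
    by_cases hc : ∃ i i', cur c' l i * Polynomial.C (∑ j, c' j i') ≠
        cur c' l i' * Polynomial.C (∑ j, c' j i)
    · exact absurd (hG c' l hcur hc) hpG
    · push Not at hc
      have h2 := congrArg (Polynomial.eval ((q : L) / p)) (hc i i')
      simp only [Polynomial.eval_mul, Polynomial.eval_C, hev] at h2
      rw [mul_div_cancel₀ _ hpL] at h2
      simp only [c'] at h2
      linear_combination -h2
  · left
    push Not at hall
    obtain ⟨F, hF, hne⟩ := hall
    obtain ⟨e, he, hFe⟩ := hFF F hF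
    have h1 := card_nat_roots _ hne T (by
      intro p hp
      obtain ⟨hp0, hpF, hpG⟩ := hT p hp
      refine ⟨hp0, ?_⟩
      rw [aeval_eval_cur]
      exact hpF F hF)
    refine h1.le.trans ((card_support_cur c l F e hFe).trans ?_)
    exact Nat.pow_le_pow_left (by omega) r

end Pool.Agent.X331.AF
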