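import Pool.Agent.X331.AF.Main

set_option autoImplicit false

/-! # Points given by arithmetic functions: versions relative to a predicate -/

namespace Pool.Agent.X331.AF

open Finset Pool.Agent.H533R3.SL
open scoped LinearAlgebra.Projectivization

variable {n r : ℕ}

/-- the points represented by the `P m`, `1 ≤ m ≤ N`, with the property `Q` -/
def famPts {L : Type} [Field L] (Q : (Fin (n + 1) → L) → Prop) (P : ℕ → Fin (n + 1) → L) (N : ℕ) :
    Set (ℙ L (Fin (n + 1) → L)) :=
  {x | ∃ m, 1 ≤ m ∧ m ≤ N ∧ ∃ h : P m ≠ 0, x = Projectivization.mk L (P m) h ∧ Q (P m)}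

theorem famPts_finite {L : Type} [Field L] (Q : (Fin (n + 1) → L) → Prop)
    (P : ℕ → Fin (n + 1) → L) (N : ℕ) : (famPts Q P N).Finite := by
  classical
  let f : ℕ → Set (ℙ L (Fin (n + 1) → L)) := fun m =>
    {x | ∃ h : P m ≠ 0, x = Projectivization.mk L (P m) h}
  have : famPts Q P N ⊆ ⋃ m ∈ (Finset.Icc 1 N : Finset ℕ), f m := by
    rintro x ⟨m, h1, h2, h, rfl, -⟩
    rw [Set.mem_iUnion₂]
    exact ⟨m, Finset.mem_Icc.2 ⟨h1, h2⟩, h, rfl⟩
  refine Set.Finite.subset (Set.Finite.biUnion (Finset.finite_toSet _) fun m _ => ?_) this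
  by_cases h : P m ≠ 0
  · refine (Set.finite_singleton (Projectivization.mk L (P m) h)).subset ?_
    rintro x ⟨_, rfl⟩
    rfl
  · refine Set.finite_empty.subset ?_
    rintro x ⟨h', -⟩
    exact h h'

/-- **few points on one curve** -/
theorem one_curve_rel {k L : Type} [Field k] [Field L] [CharZero L] [Algebra k L]
    (FF : Set (MvPolynomial (Fin (n + 1)) k)) (d : ℕ)
    (hFF : ∀ F ∈ FF, ∃ e, e ≤ d ∧ F.IsHomogeneous e)
    (Q : (Fin (n + 1) → L) → Prop)
    (hQ : ∀ (c : Fin r → Fin (n + 1) → L) (l : Fin r → ℕ),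
        (∀ F ∈ FF, MvPolynomial.aeval (cur c l) F = 0) → Q (fun i => ∑ j, c j i) →
        ∀ i i', cur c l i * Polynomial.C (∑ j, c j i') = cur c l i' * Polynomial.C (∑ j, c j i))
    (c : Fin r → Fin (n + 1) → L) (l : Fin r → ℕ) (T : Finset ℕ)
    (hT : ∀ p ∈ T, 0 < p ∧
      (∀ F ∈ FF, MvPolynomial.aeval (fun i => ∑ j, c j i * (p : L) ^ (l j)) F = 0) ∧
      Q (fun i => ∑ j, c j i * (p : L) ^ (l j))) :
    T.card ≤ (d + 1) ^ r ∨ ∀ p ∈ T, ∀ q ∈ T, ∀ i i',
      (∑ j, c j i * (p : L) ^ (l j)) * (∑ j, c j i' * (q : L) ^ (l j)) =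
        (∑ j, c j i' * (p : L) ^ (l j)) * (∑ j, c j i * (q : L) ^ (l j)) := by
  classical
  by_cases hall : ∀ F ∈ FF, MvPolynomial.aeval (cur c l) F = 0
  · right
    intro p hp q hq i i'
    obtain ⟨hp0, hpF, hpQ⟩ := hT p hp
    have hpL : (p : L) ≠ 0 := by exact_mod_cast hp0.ne'
    let c' : Fin r → Fin (n + 1) → L := fun j i => c j i * (p : L) ^ (l j)
    have hev : ∀ (t : L) (i : Fin (n + 1)), (cur c' l i).eval t =
        ∑ j, c j i * ((p : L) * t) ^ (l j) := by
      intro t i
      unfold cur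
      rw [Polynomial.eval_finsetSum]
      refine sum_congr rfl fun j _ => ?_
      simp only [c', Polynomial.eval_mul, Polynomial.eval_C, Polynomial.eval_pow,
        Polynomial.eval_X, mul_pow]
      ring
    have hcur : ∀ F ∈ FF, MvPolynomial.aeval (cur c' l) F = 0 := by
      intro F hF
      have : Infinite L := Infinite.of_injective (fun m : ℕ => (m : L)) Nat.cast_injective
      refine Polynomial.funext fun t => ?_
      rw [aeval_eval_cur, Polynomial.eval_zero]
      have h1 := aeval_eval_cur c l F ((p : L) * t)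
      rw [hall F hF, Polynomial.eval_zero] at h1
      rw [h1]
      congr 2
      funext i
      refine sum_congr rfl fun j _ => ?_
      simp only [c', mul_pow]
      ring
    have h2 := congrArg (Polynomial.eval ((q : L) / p)) (hQ c' l hcur hpQ i i')
    simp only [Polynomial.eval_mul, Polynomial.eval_C, hev] at h2
    rw [mul_div_cancel₀ _ hpL] at h2
    simp only [c'] at h2
    linear_combination -h2
  · left
    push Not at hall
    obtain ⟨F, hF, hne⟩ := hall
    obtain ⟨e, he, hFe⟩ := hFF F hF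
    have h1 := card_nat_roots _ hne T (by
      intro p hp
      obtain ⟨hp0, hpF, hpG⟩ := hT p hp
      refine ⟨hp0, ?_⟩
      rw [aeval_eval_cur]
      exact hpF F hF)
    refine h1.le.trans ((card_support_cur c l F e hFe).trans ?_)
    exact Nat.pow_le_pow_left (by omega) r

theorem rel_bound {k L : Type} [Field k] [Field L] [CharZero L] [Algebra k L]
    (FF : Set (MvPolynomial (Fin (n + 1)) k)) (d : ℕ)
    (hFF : ∀ F ∈ FF, ∃ e, e ≤ d ∧ F.IsHomogeneous e)
    (Q : (Fin (n + 1) → L) → Prop)
    (hQF : ∀ v, Q v → ∀ F ∈ FF, MvPolynomial.aeval v F = 0)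
    (hQs : ∀ (u : L) (v w : Fin (n + 1) → L), u ≠ 0 → (∀ i, v i = u * w i) → Q v → Q w)
    (hQ : ∀ (c : Fin r → Fin (n + 1) → L) (l : Fin r → ℕ),
        (∀ F ∈ FF, MvPolynomial.aeval (cur c l) F = 0) → Q (fun i => ∑ j, c j i) →
        ∀ i i', cur c l i * Polynomial.C (∑ j, c j i') = cur c l i' * Polynomial.C (∑ j, c j i))
    (s : ℕ) (P : ℕ → Fin (n + 1) → L) (hP : PrimeCurves r s P) (N : ℕ) (hN : 1 ≤ N) :
    ((famPts Q P N).ncard : ℝ) ≤
      (s * (d + 1) ^ r + 60000) * N * Real.exp (-(√(Real.log N) / 4)) := by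
  classical
  let f : ℕ → Option (ℙ L (Fin (n + 1) → L)) := fun m =>
    if h : P m ≠ 0 then some (Projectivization.mk L (P m) h) else none
  let good : ℕ → Prop := fun m => P m ≠ 0 ∧ Q (P m)
  have hK : ∀ m, 1 ≤ m → ∀ T : Finset ℕ, (∀ p ∈ T, Above m p ∧ good (m * p)) →
      ((fun p => f (m * p)) '' (T : Set ℕ)).ncard ≤ s * (d + 1) ^ r := by
    intro m hm T hT
    obtain ⟨c, l, hcl⟩ := hP m hm
    let Tj : Fin s → Finset ℕ := fun j => T.filter fun p => ∃ u : L, u ≠ 0 ∧
      ∀ i, P (m * p) i = u * ∑ a, c j a i * (p : L) ^ (l j a)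
    have hcov : ((fun p => f (m * p)) '' (T : Set ℕ)) ⊆
        (((univ : Finset (Fin s)).biUnion fun j => (Tj j).image fun p => f (m * p) :
          Finset (Option (ℙ L (Fin (n + 1) → L)))) : Set (Option (ℙ L (Fin (n + 1) → L)))) := by
      rintro _ ⟨p, hp, rfl⟩
      obtain ⟨j, u, hu, h⟩ := hcl p (hT p hp).1
      rw [mem_coe, mem_biUnion]
      exact ⟨j, mem_univ _, mem_image_of_mem _ (mem_filter.2 ⟨hp, u, hu, h⟩)⟩
    have h1 := Set.ncard_le_ncard hcov (Finset.finite_toSet _)
    rw [Set.ncard_coe_finset] at h1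
    refine h1.trans (card_biUnion_le.trans ?_)
    have hpt : ∀ j, ∀ p ∈ Tj j, 0 < p ∧
        (∀ F ∈ FF, MvPolynomial.aeval (fun i => ∑ a, c j a i * (p : L) ^ (l j a)) F = 0) ∧
        Q (fun i => ∑ a, c j a i * (p : L) ^ (l j a)) := by
      intro j p hp
      obtain ⟨hpT, u, hu, h⟩ := mem_filter.1 hp
      obtain ⟨habove, hne, hq⟩ := hT p hpT
      have hq' := hQs u _ _ hu h hq
      exact ⟨habove.1.pos, hQF _ hq', hq'⟩
    calc ∑ j, ((Tj j).image fun p => f (m * p)).card ≤ ∑ _j : Fin s, (d + 1) ^ r := by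
          refine sum_le_sum fun j _ => ?_
          rcases one_curve_rel FF d hFF Q hQ (c j) (l j) (Tj j) (hpt j) with h2 | h2
          · exact card_image_le.trans h2
          · have h3 : ((Tj j).image fun p => f (m * p)).card ≤ 1 := by
              rw [card_le_one]
              intro a ha b hb
              obtain ⟨p, hp, rfl⟩ := mem_image.1 ha
              obtain ⟨q, hq, rfl⟩ := mem_image.1 hb
              obtain ⟨hpT, u, hu, hpu⟩ := mem_filter.1 hp
              obtain ⟨hqT, v, hv, hqv⟩ := mem_filter.1 hq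
              have hpne : P (m * p) ≠ 0 := (hT p hpT).2.1
              have hqne : P (m * q) ≠ 0 := (hT q hqT).2.1
              simp only [f, dif_pos hpne, dif_pos hqne]
              congr 1
              apply Pool.Agent.TH138.LG.mk_eq_of_cross
              intro i i'
              rw [hpu i, hpu i', hqv i, hqv i']
              have := h2 p hp q hq i i'
              linear_combination u * v * this
            exact h3.trans (Nat.one_le_pow _ _ (by omega))
      _ = s * (d + 1) ^ r := by simp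
  have hcount := count_points f good (s * (d + 1) ^ r) hK N hN
  have hfin : ({x | ∃ m, 1 ≤ m ∧ m ≤ N ∧ good m ∧ f m = x} :
      Set (Option (ℙ L (Fin (n + 1) → L)))).Finite := by
    refine ((Finset.Icc 1 N).finite_toSet.image f).subset ?_
    rintro x ⟨m, h1, h2, -, rfl⟩
    exact ⟨m, by simp [h1, h2], rfl⟩
  have hle : (famPts Q P N).ncard ≤
      ({x | ∃ m, 1 ≤ m ∧ m ≤ N ∧ good m ∧ f m = x} :
        Set (Option (ℙ L (Fin (n + 1) → L)))).ncard := by
    refine Set.ncard_le_ncard_of_injOn (fun x => some x) ?_ ?_ hfin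
    · rintro x ⟨m, h1, h2, h, rfl, h3⟩
      refine ⟨m, h1, h2, ⟨h, h3⟩, ?_⟩
      simp only [f, dif_pos h]
    · intro a _ b _ hab
      exact Option.some_injective _ hab
  calc ((famPts Q P N).ncard : ℝ) ≤ _ := by exact_mod_cast hle
    _ ≤ _ := hcount
    _ = _ := by push_cast; ring

/-- **many different points on a polynomial curve** -/
theorem rel_lower {L : Type} [Field L] [CharZero L] (p : Fin (n + 1) → Polynomial L)
    (hnc : ∃ j k i i', (p j).coeff i * (p k).coeff i' ≠ (p k).coeff i * (p j).coeff i')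
    (Q : (Fin (n + 1) → L) → Prop) (q₀ : Polynomial L) (hq₀ : q₀ ≠ 0)
    (hQ : ∀ m : ℕ, q₀.eval (m : L) ≠ 0 → Q (fun i => (p i).eval (m : L))) :
    ∃ (D : ℕ) (δ : ℝ), 0 < δ ∧ PrimeCurves D 1 (fun (m : ℕ) (i : Fin (n + 1)) =>
        (p i).eval (m : L)) ∧ ∃ N₀ : ℕ, ∀ N : ℕ, N₀ ≤ N →
          δ * N ≤ ((famPts Q (fun (m : ℕ) (i : Fin (n + 1)) => (p i).eval (m : L)) N).ncard : ℝ) := by
  classical
  set D : ℕ := ∑ i, (p i).natDegree + 1 with hD
  have hDi : ∀ i, (p i).natDegree < D := by
    intro i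
    have := Finset.single_le_sum (f := fun i => (p i).natDegree) (fun _ _ => Nat.zero_le _)
      (Finset.mem_univ i)
    rw [hD]
    exact Nat.lt_succ_of_le this
  set P : ℕ → Fin (n + 1) → L := fun m i => (p i).eval (m : L) with hP
  set Dg : ℕ := q₀.natDegree with hDg
  have hDpos : 0 < D := by omega
  have hDR : (0 : ℝ) < D := by exact_mod_cast hDpos
  refine ⟨D, 1 / (2 * D), by positivity, primeCurves_of_poly p D hDi, 2 * (Dg + D),
    fun N hN => ?_⟩
  -- for a given point there are few values of `m`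
  have hfib : ∀ m' : ℕ, P m' ≠ 0 → ∀ T : Finset ℕ, (∀ m ∈ T, ∀ i j,
      P m i * P m' j = P m j * P m' i) → T.card ≤ D := by
    intro m' hm' T hT
    obtain ⟨i, j, hij⟩ : ∃ i j, p i * Polynomial.C (P m' j) ≠ p j * Polynomial.C (P m' i) := by
      by_contra hcon
      push Not at hcon
      obtain ⟨j₁, hj₁⟩ : ∃ j, P m' j ≠ 0 := by
        by_contra h
        push Not at h
        exact hm' (funext h)
      obtain ⟨j, k, i, i', h2⟩ := hnc
      apply h2
      have h3 : ∀ j i, (p j).coeff i * P m' j₁ = (p j₁).coeff i * P m' j := by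
        intro j i
        have h4 := congrArg (fun q => Polynomial.coeff q i) (hcon j j₁)
        simpa only [Polynomial.coeff_mul_C] using h4
      apply mul_right_cancel₀ (mul_ne_zero hj₁ hj₁)
      calc (p j).coeff i * (p k).coeff i' * (P m' j₁ * P m' j₁) =
          ((p j).coeff i * P m' j₁) * ((p k).coeff i' * P m' j₁) := by ring
        _ = ((p k).coeff i * P m' j₁) * ((p j).coeff i' * P m' j₁) := by
            rw [h3 j i, h3 k i', h3 k i, h3 j i']
            ring
        _ = _ := by ring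
    set q : Polynomial L := p i * Polynomial.C (P m' j) - p j * Polynomial.C (P m' i) with hq
    have hq0 : q ≠ 0 := sub_ne_zero.2 hij
    have hsub : T.image (fun m : ℕ => (m : L)) ⊆ q.roots.toFinset := by
      intro x hx
      obtain ⟨m, hm, rfl⟩ := Finset.mem_image.1 hx
      rw [Multiset.mem_toFinset, Polynomial.mem_roots hq0, Polynomial.IsRoot, hq]
      simp only [Polynomial.eval_sub, Polynomial.eval_mul, Polynomial.eval_C]
      have := hT m hm i j
      exact sub_eq_zero.2 this
    have hc1 : T.card ≤ q.natDegree := by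
      rw [← Finset.card_image_of_injective T (Nat.cast_injective (R := L))]
      exact (Finset.card_le_card hsub).trans ((Multiset.toFinset_card_le _).trans
        (Polynomial.card_roots' q))
    refine hc1.trans ?_
    rw [hq]
    refine (Polynomial.natDegree_sub_le _ _).trans ?_
    rw [max_le_iff]
    exact ⟨(Polynomial.natDegree_mul_C_le _ _).trans (hDi i).le,
      (Polynomial.natDegree_mul_C_le _ _).trans (hDi j).le⟩
  obtain ⟨i₁, hi₁⟩ : ∃ i, p i ≠ 0 := by
    by_contra h
    push Not at h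
    obtain ⟨j, k, i, i', h2⟩ := hnc
    apply h2
    rw [h j, h k]
  set A : Finset ℕ := (Finset.Icc 1 N).filter fun m => q₀.eval (m : L) ≠ 0 ∧ P m ≠ 0 with hA
  have hAc : N ≤ A.card + Dg + D := by
    have h4 : ((Finset.Icc 1 N).filter fun m : ℕ => q₀.eval (m : L) = 0).card ≤ Dg := by
      have hsub : ((Finset.Icc 1 N).filter fun m : ℕ => q₀.eval (m : L) = 0).image
          (fun m : ℕ => (m : L)) ⊆ q₀.roots.toFinset := by
        intro x hx
        obtain ⟨m, hm, rfl⟩ := Finset.mem_image.1 hx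
        rw [Multiset.mem_toFinset, Polynomial.mem_roots hq₀, Polynomial.IsRoot]
        exact (Finset.mem_filter.1 hm).2
      rw [← Finset.card_image_of_injective _ (Nat.cast_injective (R := L))]
      exact (Finset.card_le_card hsub).trans ((Multiset.toFinset_card_le _).trans
        (Polynomial.card_roots' _))
    have h4' : ((Finset.Icc 1 N).filter fun m => P m = 0).card ≤ D := by
      have hsub : ((Finset.Icc 1 N).filter fun m => P m = 0).image
          (fun m : ℕ => (m : L)) ⊆ (p i₁).roots.toFinset := by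
        intro x hx
        obtain ⟨m, hm, rfl⟩ := Finset.mem_image.1 hx
        rw [Multiset.mem_toFinset, Polynomial.mem_roots hi₁, Polynomial.IsRoot]
        exact congrFun (Finset.mem_filter.1 hm).2 i₁
      rw [← Finset.card_image_of_injective _ (Nat.cast_injective (R := L))]
      exact (Finset.card_le_card hsub).trans ((Multiset.toFinset_card_le _).trans
        ((Polynomial.card_roots' _).trans (hDi i₁).le))
    have h5 : (Finset.Icc 1 N) ⊆ A ∪
        (((Finset.Icc 1 N).filter fun m : ℕ => q₀.eval (m : L) = 0) ∪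
        ((Finset.Icc 1 N).filter fun m => P m = 0)) := by
      intro m hm
      by_cases g1 : q₀.eval (m : L) = 0
      · exact Finset.mem_union_right _ (Finset.mem_union_left _ (Finset.mem_filter.2 ⟨hm, g1⟩))
      by_cases g2 : P m = 0
      · exact Finset.mem_union_right _ (Finset.mem_union_right _ (Finset.mem_filter.2 ⟨hm, g2⟩))
      exact Finset.mem_union_left _ (Finset.mem_filter.2 ⟨hm, g1, g2⟩)
    have h6 := Finset.card_le_card h5
    rw [Nat.card_Icc, Nat.add_sub_cancel] at h6
    have h7 := Finset.card_union_le A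
        (((Finset.Icc 1 N).filter fun m : ℕ => q₀.eval (m : L) = 0) ∪
        ((Finset.Icc 1 N).filter fun m => P m = 0))
    have h8 := Finset.card_union_le
        ((Finset.Icc 1 N).filter fun m : ℕ => q₀.eval (m : L) = 0)
        ((Finset.Icc 1 N).filter fun m => P m = 0)
    omega
  let f : ℕ → Option (ℙ L (Fin (n + 1) → L)) := fun m =>
    if h : P m ≠ 0 then some (Projectivization.mk L (P m) h) else none
  have hfc : A.card ≤ D * (A.image f).card := by
    refine Finset.card_le_mul_card_image A D ?_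
    intro x hx
    obtain ⟨m', hm', rfl⟩ := Finset.mem_image.1 hx
    have hP' : P m' ≠ 0 := (Finset.mem_filter.1 hm').2.2
    refine hfib m' hP' _ ?_
    intro m hm i j
    obtain ⟨hmA, hfm⟩ := Finset.mem_filter.1 hm
    have hPm : P m ≠ 0 := (Finset.mem_filter.1 hmA).2.2
    simp only [f, dif_pos hP', dif_pos hPm] at hfm
    have h9 := Option.some_injective _ hfm
    rw [Projectivization.mk_eq_mk_iff'] at h9
    obtain ⟨a, ha⟩ := h9
    rw [← ha]
    simp only [Pi.smul_apply, smul_eq_mul]
    ring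
  have hle : (A.image f).card ≤ (famPts Q P N).ncard := by
    rw [← Set.ncard_coe_finset, ← Set.ncard_image_of_injective (famPts Q P N)
      (Option.some_injective _)]
    refine Set.ncard_le_ncard ?_ ((famPts_finite Q P N).image _)
    intro x hx
    rw [Finset.mem_coe] at hx
    obtain ⟨m, hm, rfl⟩ := Finset.mem_image.1 hx
    obtain ⟨hmI, hmG, hmP⟩ := Finset.mem_filter.1 hm
    rw [Finset.mem_Icc] at hmI
    simp only [f, dif_pos hmP]
    exact ⟨_, ⟨m, hmI.1, hmI.2, hmP, rfl, hQ m hmG⟩, rfl⟩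
  have h10 : (A.card : ℝ) ≤ D * ((famPts Q P N).ncard : ℝ) := by
    exact_mod_cast hfc.trans (Nat.mul_le_mul_left D hle)
  have h11 : (N : ℝ) ≤ A.card + Dg + D := by exact_mod_cast hAc
  have h12 : 2 * ((Dg : ℝ) + D) ≤ N := by exact_mod_cast hN
  rw [div_mul_eq_mul_div, one_mul, div_le_iff₀ (by positivity)]
  linarith

end Pool.Agent.X331.AF
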