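import Mathlib

set_option autoImplicit false

/-! # Rankin's bound for smooth numbers, in a crude explicit form -/

namespace Pool.Agent.X331.AF

open Finset Real

/-- `n ↦ n ^ (-σ)` as a monoid homomorphism -/
noncomputable def pw (σ : ℝ) : ℕ →* ℝ where
  toFun n := (n : ℝ) ^ (-σ)
  map_one' := by simp
  map_mul' a b := by
    push_cast
    exact Real.mul_rpow (Nat.cast_nonneg a) (Nat.cast_nonneg b)

theorem inv_one_sub_le {x : ℝ} (h0 : 0 ≤ x) (h1 : x ≤ 3 / 4) : (1 - x)⁻¹ ≤ exp (4 * x) := by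
  have h2 : 0 < 1 - x := by linarith
  rw [inv_le_iff_one_le_mul₀ h2]
  have h3 : 1 + 4 * x ≤ exp (4 * x) := by linarith [Real.add_one_le_exp (4 * x)]
  nlinarith

theorem sum_inv_le (k : ℕ) : ∑ n ∈ Icc 1 k, (1 : ℝ) / n ≤ 1 + log k := by
  have h1 := harmonic_le_one_add_log k
  have h2 : ((harmonic k : ℚ) : ℝ) = ∑ n ∈ Icc 1 k, (1 : ℝ) / n := by
    rw [harmonic_eq_sum_Icc]
    push_cast
    exact Finset.sum_congr rfl fun n _ => by rw [one_div]
  linarith

theorem two_rpow_le {σ : ℝ} (hσ : 1 / 2 ≤ σ) {p : ℕ} (hp : 2 ≤ p) : (p : ℝ) ^ (-σ) ≤ 3 / 4 := by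
  have hp1 : (1 : ℝ) ≤ p := by exact_mod_cast (by omega : 1 ≤ p)
  have h1 : (p : ℝ) ^ (-σ) ≤ (p : ℝ) ^ (-(1 / 2) : ℝ) :=
    Real.rpow_le_rpow_of_exponent_le hp1 (by linarith)
  refine h1.trans ?_
  rw [Real.rpow_neg (by positivity), ← Real.sqrt_eq_rpow]
  have h2 : (4 / 3 : ℝ) ≤ √p := by
    apply Real.le_sqrt_of_sq_le
    have : (2 : ℝ) ≤ p := by exact_mod_cast hp
    norm_num
    linarith
  rw [inv_le_comm₀ (by linarith) (by norm_num)]
  norm_num
  linarith

/-- Rankin's bound: if all prime factors of the elements of `S ⊆ [1, N]` are less than `e ^ t` -/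
theorem rankin (N : ℕ) (t : ℝ) (ht : 2 ≤ t) (S : Finset ℕ)
    (hS : ∀ n ∈ S, 1 ≤ n ∧ n ≤ N ∧ ∀ p : ℕ, p.Prime → p ∣ n → (p : ℝ) < exp t) :
    (S.card : ℝ) ≤ N * exp (-(log N / t) + 11 * (1 + t)) := by
  rcases S.eq_empty_or_nonempty with rfl | ⟨n₀, hn₀⟩
  · simp only [card_empty, Nat.cast_zero]
    positivity
  have hN : 1 ≤ N := (hS n₀ hn₀).1.trans (hS n₀ hn₀).2.1
  have hNR : (0 : ℝ) < N := by exact_mod_cast hN
  set σ : ℝ := 1 - 1 / t with hσdef
  have ht0 : 0 < t := by linarith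
  have hσ : 1 / 2 ≤ σ := by
    have : 1 / t ≤ 1 / 2 := one_div_le_one_div_of_le (by norm_num) ht
    rw [hσdef]
    linarith
  set k : ℕ := ⌈exp t⌉₊ with hk
  have hmem : ∀ n ∈ S, n ∈ Nat.smoothNumbers k := by
    intro n hn
    obtain ⟨h1, h2, h3⟩ := hS n hn
    rw [Nat.mem_smoothNumbers']
    intro p hp hpn
    have := h3 p hp hpn
    rw [hk]
    exact Nat.lt_ceil.2 this
  have hlt : ∀ {p : ℕ}, p.Prime → ‖pw σ p‖ < 1 := by
    intro p hp
    have h0 : 0 ≤ pw σ p := Real.rpow_nonneg (Nat.cast_nonneg p) _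
    rw [Real.norm_of_nonneg h0]
    exact lt_of_le_of_lt (two_rpow_le hσ hp.two_le) (by norm_num)
  obtain ⟨hsum, hhas⟩ :=
    EulerProduct.summable_and_hasSum_smoothNumbers_prod_primesBelow_geometric
      (f := pw σ) hlt k
  -- the sum over `S`
  have h1 : (S.card : ℝ) ≤ (N : ℝ) ^ σ * ∑ n ∈ S, (n : ℝ) ^ (-σ) := by
    rw [Finset.mul_sum, Finset.card_eq_sum_ones, Nat.cast_sum]
    refine Finset.sum_le_sum fun n hn => ?_
    obtain ⟨h1, h2, h3⟩ := hS n hn
    have hn0 : (0 : ℝ) < n := by exact_mod_cast h1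
    rw [Real.rpow_neg hn0.le, ← div_eq_mul_inv, Nat.cast_one, one_le_div (by positivity)]
    exact Real.rpow_le_rpow hn0.le (by exact_mod_cast h2) (by linarith)
  have h2 : ∑ n ∈ S, (n : ℝ) ^ (-σ) ≤ ∏ p ∈ k.primesBelow, (1 - (p : ℝ) ^ (-σ))⁻¹ := by
    have h3 : ∑ n ∈ S, (n : ℝ) ^ (-σ) =
        ∑ n ∈ S.subtype (fun n => n ∈ Nat.smoothNumbers k), pw σ n := by
      rw [Finset.sum_subtype_of_mem (fun n : ℕ => pw σ n) hmem]
      rfl
    rw [h3]
    exact sum_le_hasSum _ (fun n _ => Real.rpow_nonneg (Nat.cast_nonneg _) _) hhas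
  have h3 : ∏ p ∈ k.primesBelow, (1 - (p : ℝ) ^ (-σ))⁻¹ ≤ exp (11 * (1 + t)) := by
    have h4 : ∀ p ∈ k.primesBelow, (1 - (p : ℝ) ^ (-σ))⁻¹ ≤ exp (11 * (1 / (p : ℝ))) := by
      intro p hp
      have hpp : p.Prime := Nat.prime_of_mem_primesBelow hp
      have hpk : p < k := Nat.lt_of_mem_primesBelow hp
      have hp0 : (0 : ℝ) < p := by exact_mod_cast hpp.pos
      have hpt : (p : ℝ) ≤ exp t := by
        rw [hk, Nat.lt_ceil] at hpk
        exact hpk.le
      have h5 : (p : ℝ) ^ (-σ) ≤ exp 1 * (1 / (p : ℝ)) := by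
        rw [hσdef, show -(1 - 1 / t) = 1 / t - 1 by ring, Real.rpow_sub hp0, Real.rpow_one,
          div_eq_mul_one_div]
        refine mul_le_mul_of_nonneg_right ?_ (by positivity)
        calc (p : ℝ) ^ (1 / t) ≤ (exp t) ^ (1 / t) :=
              Real.rpow_le_rpow hp0.le hpt (by positivity)
          _ = exp 1 := by
              rw [← Real.exp_mul]
              congr 1
              field_simp
      refine (inv_one_sub_le (Real.rpow_nonneg hp0.le _) (two_rpow_le hσ hpp.two_le)).trans ?_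
      rw [Real.exp_le_exp]
      have h6 : exp 1 ≤ 11 / 4 := by
        have := Real.exp_one_lt_d9
        linarith
      have h7 : 0 < 1 / (p : ℝ) := by positivity
      nlinarith
    calc ∏ p ∈ k.primesBelow, (1 - (p : ℝ) ^ (-σ))⁻¹
        ≤ ∏ p ∈ k.primesBelow, exp (11 * (1 / (p : ℝ))) := by
          refine Finset.prod_le_prod (fun p hp => ?_) h4
          have hpp : p.Prime := Nat.prime_of_mem_primesBelow hp
          have := two_rpow_le hσ hpp.two_le
          rw [inv_nonneg]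
          linarith
      _ = exp (11 * ∑ p ∈ k.primesBelow, 1 / (p : ℝ)) := by
          rw [← Real.exp_sum, Finset.mul_sum]
      _ ≤ exp (11 * (1 + t)) := by
          rw [Real.exp_le_exp]
          refine mul_le_mul_of_nonneg_left ?_ (by norm_num)
          have h5 : ∑ p ∈ k.primesBelow, 1 / (p : ℝ) ≤ ∑ n ∈ Icc 1 ⌊exp t⌋₊, (1 : ℝ) / n := by
            refine Finset.sum_le_sum_of_subset_of_nonneg ?_ fun _ _ _ => by positivity
            intro p hp
            have hpp : p.Prime := Nat.prime_of_mem_primesBelow hp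
            have hpk : p < k := Nat.lt_of_mem_primesBelow hp
            rw [Finset.mem_Icc]
            refine ⟨hpp.one_le, Nat.le_floor ?_⟩
            rw [hk, Nat.lt_ceil] at hpk
            exact hpk.le
          refine h5.trans ((sum_inv_le _).trans ?_)
          have h6 : log (⌊exp t⌋₊ : ℝ) ≤ t := by
            have h7 : (⌊exp t⌋₊ : ℝ) ≤ exp t := Nat.floor_le (Real.exp_pos t).le
            have h8 : (1 : ℝ) ≤ (⌊exp t⌋₊ : ℝ) := by
              have : 1 ≤ ⌊exp t⌋₊ := Nat.le_floor (by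
                push_cast
                exact Real.one_le_exp ht0.le)
              exact_mod_cast this
            calc log (⌊exp t⌋₊ : ℝ) ≤ log (exp t) := Real.log_le_log (by linarith) h7
              _ = t := Real.log_exp t
          linarith
  calc (S.card : ℝ) ≤ (N : ℝ) ^ σ * ∑ n ∈ S, (n : ℝ) ^ (-σ) := h1
    _ ≤ (N : ℝ) ^ σ * exp (11 * (1 + t)) := by
        refine mul_le_mul_of_nonneg_left (h2.trans h3) (by positivity)
    _ = N * exp (-(log N / t) + 11 * (1 + t)) := by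
        rw [Real.exp_add, ← mul_assoc]
        congr 1
        rw [hσdef, Real.rpow_sub hNR, Real.rpow_one, div_eq_mul_inv]
        congr 1
        rw [Real.rpow_def_of_pos hNR, ← Real.exp_neg]
        congr 1
        ring

end Pool.Agent.X331.AF
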